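import Mathlib

/-!
# Plane triangulations, the isoperimetric assumption (I), and site percolation
-/

set_option autoImplicit false

namespace Pool.Agent.Lib.MP_92f966_pr

open MeasureTheory

variable {V : Type}

/-- The drawing of `G` in the plane when each vertex `v` is placed at `φ v` and each edge is drawn
as a straight segment: the union of all edges. -/
def drawing (G : SimpleGraph V) (φ : V → ℝ × ℝ) : Set (ℝ × ℝ) :=
  {z | ∃ a b : V, G.Adj a b ∧ z ∈ segment ℝ (φ a) (φ b)}

/-- `G` is an infinite, connected, locally finite graph and placing the vertices at the points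
`φ v` and drawing the edges as straight segments gives a proper embedding of `G` in the plane in
which every face is bounded by a triangle. -/
structure IsPlaneTriangulation (G : SimpleGraph V) (φ : V → ℝ × ℝ) : Prop where
  infinite : Infinite V
  connected : G.Connected
  locallyFinite : ∀ v, (G.neighborSet v).Finite
  injective : Function.Injective φ
  /-- Two different edges meet at most in a common endpoint. -/
  noncrossing : ∀ a b c d : V, G.Adj a b → G.Adj c d → s(a, b) ≠ s(c, d) →
    ∀ z ∈ segment ℝ (φ a) (φ b) ∩ segment ℝ (φ c) (φ d),
      ∃ v, v ∈ s(a, b) ∧ v ∈ s(c, d) ∧ z = φ v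
  /-- Every compact set meets only finitely many vertices. -/
  properVertices : ∀ K : Set (ℝ × ℝ), IsCompact K → {v | φ v ∈ K}.Finite
  /-- Every compact set meets only finitely many edges. -/
  properEdges : ∀ K : Set (ℝ × ℝ), IsCompact K →
    {p : V × V | G.Adj p.1 p.2 ∧ (segment ℝ (φ p.1) (φ p.2) ∩ K).Nonempty}.Finite
  /-- Every face (connected component of the complement of the drawing) is the open triangle
  spanned by three pairwise adjacent vertices. -/
  faces : ∀ z ∉ drawing G φ, ∃ a b c : V, G.Adj a b ∧ G.Adj b c ∧ G.Adj a c ∧
    connectedComponentIn (drawing G φ)ᶜ z = interior (convexHull ℝ {φ a, φ b, φ c})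

/-- The number of edges with exactly one endpoint in `A`. -/
noncomputable def edgeBoundary (G : SimpleGraph V) (A : Finset V) : ℕ :=
  {p : V × V | p.1 ∈ A ∧ p.2 ∉ A ∧ G.Adj p.1 p.2}.ncard

/-- The isoperimetric assumption (I): there is a function `f : ℕ → [0, ∞)` with `f n → ∞` such that
`|∂A| ≥ f(|A|) log |A|` for every finite vertex set `A`. -/
def IsoperimetricAssumption (G : SimpleGraph V) : Prop :=
  ∃ f : ℕ → ℝ, (∀ n, 0 ≤ f n) ∧ Filter.Tendsto f Filter.atTop Filter.atTop ∧
    ∀ A : Finset V, f A.card * Real.log A.card ≤ edgeBoundary G A

/-- Site percolation: the vertices are open (`true`) independently with probability `p`. -/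
noncomputable def siteMeasure (V : Type) (p : unitInterval) : Measure (V → Bool) :=
  Measure.infinitePi fun _ : V => ProbabilityTheory.bernoulliMeasure true false p

/-- There is an infinite connected component of open vertices. -/
def HasInfiniteCluster (G : SimpleGraph V) (ω : V → Bool) : Prop :=
  ∃ C : (G.induce {v | ω v = true}).ConnectedComponent, C.supp.Infinite

/-- The critical probability of site percolation on `G`. -/
noncomputable def siteCritical (G : SimpleGraph V) : ℝ :=
  sInf {p : ℝ | ∃ hp : p ∈ Set.Icc (0 : ℝ) 1,
    0 < siteMeasure V ⟨p, hp⟩ {ω | HasInfiniteCluster G ω}}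

end Pool.Agent.Lib.MP_92f966_pr
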