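import Pool.Agent.Lib.MP_92f966_pr.Graph
import Pool.Agent.Lib.MP_92f966_pr.Defs

/-!
# Closed crossings and closed circuits
-/

set_option autoImplicit false

namespace Pool.Agent.Lib.MP_92f966_pr

/-- Two crossings with common ends separate the region between them from the rest. -/
lemma separation {b : ℕ} {a c : ℤ} {u l : ℤ → ℤ}
    (hu : ∀ x, a ≤ x → x < c → rung b x (u x) (u (x + 1)))
    (hl : ∀ x, a ≤ x → x < c → rung b x (l x) (l (x + 1)))
    (ha : u a = l a) (hc : u c = l c) {v w : ℤ × ℤ}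
    (hv : a < v.1 ∧ v.1 < c ∧ l v.1 < v.2 ∧ v.2 < u v.1) (hadj : (G b).Adj v w) :
    (a < w.1 ∧ w.1 < c ∧ l w.1 < w.2 ∧ w.2 < u w.1) ∨
      (a ≤ w.1 ∧ w.1 ≤ c ∧ (w.2 = u w.1 ∨ w.2 = l w.1)) := by
  obtain ⟨v1, v2⟩ := v
  obtain ⟨w1, w2⟩ := w
  obtain ⟨h1, h2, h3, h4⟩ := hv
  rw [G_adj] at hadj
  simp only at h1 h2 h3 h4 hadj ⊢
  rcases hadj with ⟨h5, h6⟩ | ⟨h5, h6⟩ | ⟨h5, h6⟩
  · subst h5
    rcases h6 with h6 | h6
    · rcases lt_or_ge w2 (u v1) with h7 | h7
      · left; omega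
      · right; exact ⟨h1.le, h2.le, Or.inl (by omega)⟩
    · rcases lt_or_ge (l v1) w2 with h7 | h7
      · left; omega
      · right; exact ⟨h1.le, h2.le, Or.inr (by omega)⟩
  · subst h5
    have e1 := rung_mono h6 (hu v1 h1.le h2) h4
    have e2 := rung_mono (hl v1 h1.le h2) h6 h3
    by_cases h8 : v1 + 1 = c
    · right
      rw [h8] at e1 e2 ⊢
      exact ⟨by omega, le_refl _, Or.inl (by omega)⟩
    · rcases e1.lt_or_eq with h9 | h9
      · rcases e2.lt_or_eq with h10 | h10
        · left; omega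
        · right; exact ⟨by omega, by omega, Or.inr h10.symm⟩
      · right; exact ⟨by omega, by omega, Or.inl h9⟩
  · subst h5
    have e1 := rung_mono' h6 (hu w1 (by omega) (by omega)) h4
    have e2 := rung_mono' (hl w1 (by omega) (by omega)) h6 h3
    by_cases h8 : w1 = a
    · right
      rw [h8] at e1 e2 ⊢
      exact ⟨le_refl _, by omega, Or.inl (by omega)⟩
    · rcases e1.lt_or_eq with h9 | h9
      · rcases e2.lt_or_eq with h10 | h10
        · left; omega
        · right; exact ⟨by omega, by omega, Or.inr h10.symm⟩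
      · right; exact ⟨by omega, by omega, Or.inl h9⟩

/-- The vertex `v` lies inside a closed circuit. -/
def Surrounded (b : ℕ) (ω : ℤ × ℤ → Bool) (v : ℤ × ℤ) : Prop :=
  ∃ (a c : ℤ) (u l : ℤ → ℤ),
    (∀ x, a ≤ x → x < c → rung b x (u x) (u (x + 1))) ∧
    (∀ x, a ≤ x → x < c → rung b x (l x) (l (x + 1))) ∧
    u a = l a ∧ u c = l c ∧
    (∀ x, a ≤ x → x ≤ c → ω (x, u x) = false ∧ ω (x, l x) = false) ∧
    (a < v.1 ∧ v.1 < c ∧ l v.1 < v.2 ∧ v.2 < u v.1)

lemma Surrounded.finite {b : ℕ} {ω : ℤ × ℤ → Bool} {v : {v : ℤ × ℤ | ω v = true}}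
    (h : Surrounded b ω v.1) :
    (((G b).induce {v | ω v = true}).connectedComponentMk v).supp.Finite := by
  obtain ⟨a, c, u, l, hu, hl, ha, hc, hclosed, hin⟩ := h
  set S : Set (ℤ × ℤ) := {w | a < w.1 ∧ w.1 < c ∧ l w.1 < w.2 ∧ w.2 < u w.1} with hS
  have hSfin : S.Finite := by
    have : S ⊆ ⋃ x ∈ Set.Ioo a c, (fun y => (x, y)) '' Set.Ioo (l x) (u x) := by
      rintro ⟨w1, w2⟩ ⟨h1, h2, h3, h4⟩
      simp only [Set.mem_iUnion, Set.mem_image]
      exact ⟨w1, ⟨h1, h2⟩, w2, ⟨h3, h4⟩, rfl⟩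
    exact (Set.Finite.biUnion (Set.finite_Ioo a c) fun x _ =>
      (Set.finite_Ioo (l x) (u x)).image _).subset this
  have key : ∀ (v w : {v : ℤ × ℤ | ω v = true}), v.1 ∈ S →
      ((G b).induce {v | ω v = true}).Walk v w → w.1 ∈ S := by
    intro v w hv p
    induction p with
    | nil => exact hv
    | @cons x y z hadj _ ih =>
      apply ih
      have hadj' : (G b).Adj x.1 y.1 := hadj
      rcases separation hu hl ha hc hv hadj' with h | ⟨h1, h2, h3 | h3⟩
      · exact h
      · exfalso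
        have h4 := (hclosed y.1.1 h1 h2).1
        rw [← h3] at h4
        have h5 : ω y.1 = true := y.2
        have h6 : ω y.1 = false := h4
        rw [h5] at h6
        exact absurd h6 (by decide)
      · exfalso
        have h4 := (hclosed y.1.1 h1 h2).2
        rw [← h3] at h4
        have h5 : ω y.1 = true := y.2
        have h6 : ω y.1 = false := h4
        rw [h5] at h6
        exact absurd h6 (by decide)
  have hsub : (((G b).induce {v | ω v = true}).connectedComponentMk v).supp ⊆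
      Subtype.val ⁻¹' S := by
    intro w hw
    have hr : ((G b).induce {v | ω v = true}).Reachable w v := by
      rwa [SimpleGraph.ConnectedComponent.mem_supp_iff, SimpleGraph.ConnectedComponent.eq] at hw
    obtain ⟨p⟩ := hr.symm
    exact key v w hin p
  exact (hSfin.preimage (Subtype.val_injective.injOn)).subset hsub

/-- The vertex `v` lies in row `y` of level `k`. -/
def InRow (b k : ℕ) (y : ℤ) (v : ℤ × ℤ) : Prop :=
  2 * |B b ^ rank v.1 * v.2 - B b ^ k * y| < B b ^ k

lemma InRow.unique {b k : ℕ} {y y' : ℤ} {v : ℤ × ℤ} (h : InRow b k y v) (h' : InRow b k y' v) :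
    y = y' := by
  unfold InRow at h h'
  have hB : 0 < B b ^ k := pow_pos (B_pos b) k
  set t := B b ^ rank v.1 * v.2
  have h1 : |B b ^ k * y - B b ^ k * y'| < B b ^ k := by
    have h2 : B b ^ k * y - B b ^ k * y' = (t - B b ^ k * y') - (t - B b ^ k * y) := by ring
    rw [h2]
    have := abs_sub (t - B b ^ k * y') (t - B b ^ k * y)
    linarith
  rw [← mul_sub, abs_mul, abs_of_pos hB] at h1
  have h3 : |y - y'| < 1 := by
    by_contra hcon
    have := mul_le_mul_of_nonneg_left (not_lt.mp hcon) hB.le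
    linarith
  have h4 := abs_lt.mp h3
  omega

lemma InRow.parent {b k : ℕ} {y j : ℤ} {v : ℤ × ℤ} (h : InRow b k j v)
    (h1 : B b * y - b ≤ j) (h2 : j ≤ B b * y + b) : InRow b (k + 1) y v := by
  unfold InRow at h ⊢
  have hB : 0 < B b ^ k := pow_pos (B_pos b) k
  set t := B b ^ rank v.1 * v.2
  have h3 : |j - B b * y| ≤ b := by rw [abs_le]; constructor <;> linarith
  have e : t - B b ^ (k + 1) * y = (t - B b ^ k * j) + B b ^ k * (j - B b * y) := by ring
  have h4 := abs_add_le (t - B b ^ k * j) (B b ^ k * (j - B b * y))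
  rw [abs_mul, abs_of_pos hB] at h4
  rw [e]
  have h5 := mul_le_mul_of_nonneg_left h3 hB.le
  have h6 : B b ^ (k + 1) = B b ^ k * (2 * b + 1) := by rw [pow_succ]; rfl
  rw [h6]
  nlinarith

lemma inRow_self {b k : ℕ} {y : ℤ} {v : ℤ × ℤ} (h : rank v.1 = k) (hy : v.2 = y) :
    InRow b k y v := by
  unfold InRow
  rw [h, hy, sub_self, abs_zero, mul_zero]
  exact pow_pos (B_pos b) k

lemma InRow.eq_of_rank {b k : ℕ} {y : ℤ} {v : ℤ × ℤ} (h : InRow b k y v) (hr : rank v.1 = k) :
    v.2 = y := by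
  have h' : InRow b k v.2 v := inRow_self hr rfl
  exact h'.unique h

/-- A closed crossing of the level `k` block with centre column `c` and row `y`. -/
def Cross (b : ℕ) (ω : ℤ × ℤ → Bool) (k : ℕ) (y c : ℤ) : Prop :=
  ∃ u : ℤ → ℤ, (∀ x, c - X k ≤ x → x ≤ c + X k → ω (x, u x) = false ∧ InRow b k y (x, u x)) ∧
    (∀ x, c - X k ≤ x → x < c + X k → rung b x (u x) (u (x + 1)))

/-- Concatenation of three crossings. -/
lemma three_cross {b : ℕ} {ω : ℤ × ℤ → Bool} {k : ℕ} {j c : ℤ} (hb : Blk (k + 1) c)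
    (h1 : Cross b ω k j (c - D k)) (h2 : Cross b ω k j c) (h3 : Cross b ω k j (c + D k)) :
    ∃ u : ℤ → ℤ,
      (∀ x, c - D k - X k ≤ x → x ≤ c + D k + X k → ω (x, u x) = false ∧ InRow b k j (x, u x)) ∧
      (∀ x, c - D k - X k ≤ x → x < c + D k + X k → rung b x (u x) (u (x + 1))) ∧
      u (c - D k - X k) = j ∧ u (c + D k + X k) = j := by
  obtain ⟨u1, hu1, hr1⟩ := h1
  obtain ⟨u2, hu2, hr2⟩ := h2
  obtain ⟨u3, hu3, hr3⟩ := h3
  have e2 := D_eq k
  have e3 := X_nonneg k
  -- ranks at the ends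
  have hend : ∀ c', Blk k c' → rank (c' - X k) = k ∧ rank (c' + X k) = k := by
    intro c' hc'
    constructor
    · rw [sub_eq_add_neg, hc' (-X k) (by rw [abs_neg, abs_of_nonneg e3]), rank_neg_X]
    · rw [hc' (X k) (by rw [abs_of_nonneg e3]), rank_X]
  obtain ⟨r1, r2⟩ := hend _ hb.left
  obtain ⟨r3, r4⟩ := hend _ hb.mid
  obtain ⟨r5, r6⟩ := hend _ hb.right
  have v1 : u1 (c - D k - X k) = j :=
    (hu1 _ le_rfl (by linarith)).2.eq_of_rank r1
  have v2 : u1 (c - D k + X k) = j :=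
    (hu1 _ (by linarith) le_rfl).2.eq_of_rank r2
  have v3 : u2 (c - X k) = j := (hu2 _ le_rfl (by linarith)).2.eq_of_rank r3
  have v4 : u2 (c + X k) = j := (hu2 _ (by linarith) le_rfl).2.eq_of_rank r4
  have v5 : u3 (c + D k - X k) = j := (hu3 _ le_rfl (by linarith)).2.eq_of_rank r5
  have v6 : u3 (c + D k + X k) = j := (hu3 _ (by linarith) le_rfl).2.eq_of_rank r6
  refine ⟨fun x => if x ≤ c - D k + X k then u1 x else if x ≤ c + X k then u2 x else u3 x,
    ?_, ?_, ?_, ?_⟩
  · intro x hx1 hx2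
    dsimp only
    split_ifs with g1 g2
    · exact hu1 x hx1 g1
    · exact hu2 x (by linarith) g2
    · exact hu3 x (by linarith) hx2
  · intro x hx1 hx2
    dsimp only
    by_cases g1 : x + 1 ≤ c - D k + X k
    · rw [if_pos (by linarith), if_pos g1]
      exact hr1 x hx1 (by linarith)
    by_cases g2 : x ≤ c - D k + X k
    · have hx : x = c - D k + X k := by omega
      have hx' : x + 1 = c - X k := by omega
      rw [if_pos g2, if_neg g1, if_pos (by linarith), hx', hx, v2, v3,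
        rung_eq]
      · exact Or.inl rfl
      · rw [r2, ← hx, hx', r3]
    by_cases g3 : x + 1 ≤ c + X k
    · rw [if_neg g2, if_pos (by linarith), if_neg g1, if_pos g3]
      exact hr2 x (by linarith) (by linarith)
    by_cases g4 : x ≤ c + X k
    · have hx : x = c + X k := by omega
      have hx' : x + 1 = c + D k - X k := by omega
      rw [if_neg g2, if_pos g4, if_neg g1, if_neg g3, hx', hx, v4, v5, rung_eq]
      · exact Or.inl rfl
      · rw [r4, ← hx, hx', r5]
    · rw [if_neg g2, if_neg g4, if_neg g1, if_neg g3]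
      exact hr3 x (by linarith) hx2
  · dsimp only
    rw [if_pos (by linarith), v1]
  · dsimp only
    rw [if_neg (by linarith), if_neg (by linarith), v6]

/-- A crossing of a level `k + 1` block with prescribed row of level `k` in the interior. -/
lemma cross_succ {b : ℕ} {ω : ℤ × ℤ → Bool} {k : ℕ} {y j c : ℤ} (hb : Blk (k + 1) c)
    (hl : ω (c - X (k + 1), y) = false) (hr : ω (c + X (k + 1), y) = false)
    (hj1 : B b * y - b ≤ j) (hj2 : j ≤ B b * y + b)
    (h1 : Cross b ω k j (c - D k)) (h2 : Cross b ω k j c) (h3 : Cross b ω k j (c + D k)) :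
    ∃ u : ℤ → ℤ,
      (∀ x, c - X (k + 1) ≤ x → x ≤ c + X (k + 1) → ω (x, u x) = false) ∧
      (∀ x, c - X (k + 1) < x → x < c + X (k + 1) → InRow b k j (x, u x)) ∧
      (∀ x, c - X (k + 1) ≤ x → x < c + X (k + 1) → rung b x (u x) (u (x + 1))) ∧
      u (c - X (k + 1)) = y ∧ u (c + X (k + 1)) = y := by
  obtain ⟨u, hu1, hu2, hu3, hu4⟩ := three_cross hb h1 h2 h3
  have e1 := X_succ k
  have e2 := D_eq k
  have e3 := X_nonneg k
  have e4 := X_nonneg (k + 1)
  have rl : rank (c - X (k + 1)) = k + 1 := by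
    rw [sub_eq_add_neg, hb (-X (k + 1)) (by rw [abs_neg, abs_of_nonneg e4]), rank_neg_X]
  have rr : rank (c + X (k + 1)) = k + 1 := by
    rw [hb (X (k + 1)) (by rw [abs_of_nonneg e4]), rank_X]
  have rl' : rank (c - D k - X k) = k := by
    rw [sub_eq_add_neg, hb.left (-X k) (by rw [abs_neg, abs_of_nonneg e3]), rank_neg_X]
  have rr' : rank (c + D k + X k) = k := by
    rw [hb.right (X k) (by rw [abs_of_nonneg e3]), rank_X]
  refine ⟨fun x => if x = c - X (k + 1) then y else if x = c + X (k + 1) then y else u x,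
    ?_, ?_, ?_, ?_, ?_⟩
  · intro x hx1 hx2
    dsimp only
    split_ifs with g1 g2
    · rw [g1]; exact hl
    · rw [g2]; exact hr
    · exact (hu1 x (by omega) (by omega)).1
  · intro x hx1 hx2
    dsimp only
    rw [if_neg (by omega), if_neg (by omega)]
    exact (hu1 x (by omega) (by omega)).2
  · intro x hx1 hx2
    dsimp only
    by_cases g1 : x = c - X (k + 1)
    · have hx' : x + 1 = c - D k - X k := by omega
      rw [if_pos g1, if_neg (by omega), if_neg (by omega), hx', hu3, rung_left]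
      · exact ⟨hj1, by linarith⟩
      · rw [hx', rl', g1, rl]
        exact Nat.lt_succ_self k
    by_cases g2 : x + 1 = c + X (k + 1)
    · have hx' : x = c + D k + X k := by omega
      rw [if_neg g1, if_neg (by omega), if_neg (by omega), if_pos g2]
      have : u x = j := by rw [hx', hu4]
      rw [this, rung_right]
      · exact ⟨hj1, by linarith⟩
      · rw [g2, rr, hx', rr']
        exact Nat.lt_succ_self k
    · rw [if_neg g1, if_neg (by omega), if_neg (by omega), if_neg g2]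
      exact hu2 x (by omega) (by omega)
  · simp
  · dsimp only
    split_ifs with g1 g2
    · rfl
    · rfl
    · exact absurd rfl g2

/-- Explicit events implying closed crossings. -/
def Ev (b : ℕ) : ℕ → ℤ → ℤ → Set (ℤ × ℤ → Bool)
  | 0, y, c => {ω | ω (c, y) = false}
  | k + 1, y, c =>
    ({ω | ω (c - X (k + 1), y) = false} ∩ {ω | ω (c + X (k + 1), y) = false}) ∩
      ⋃ j ∈ Finset.Icc (B b * y - b) (B b * y + b),
        (Ev b k j (c - D k) ∩ Ev b k j c) ∩ Ev b k j (c + D k)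

lemma cross_of_Ev (b : ℕ) (k : ℕ) : ∀ (y c : ℤ), Blk k c → ∀ ω ∈ Ev b k y c, Cross b ω k y c := by
  induction k with
  | zero =>
    intro y c hb ω hω
    have hX := X_zero
    have hr : rank c = 0 := by
      have := hb 0 (by simp [hX])
      rw [add_zero] at this
      rw [this]
      rfl
    refine ⟨fun _ => y, ?_, ?_⟩
    · intro x hx1 hx2
      have : x = c := by omega
      subst this
      exact ⟨hω, inRow_self hr rfl⟩
    · intro x hx1 hx2
      omega
  | succ k ih =>
    intro y c hb ω hω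
    obtain ⟨⟨h1, h2⟩, h3⟩ := hω
    simp only [Set.mem_iUnion, Finset.mem_Icc] at h3
    obtain ⟨j, ⟨hj1, hj2⟩, ⟨h4, h5⟩, h6⟩ := h3
    obtain ⟨u, g1, g2, g3, g4, g5⟩ := cross_succ hb h1 h2 hj1 hj2 (ih j _ hb.left ω h4)
      (ih j _ hb.mid ω h5) (ih j _ hb.right ω h6)
    have e4 := X_nonneg (k + 1)
    refine ⟨u, ?_, g3⟩
    intro x hx1 hx2
    refine ⟨g1 x hx1 hx2, ?_⟩
    rcases hx1.eq_or_lt with h7 | h7
    · rw [← h7]
      refine inRow_self ?_ g4
      show rank (c - X (k + 1)) = k + 1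
      rw [sub_eq_add_neg, hb (-X (k + 1)) (by rw [abs_neg, abs_of_nonneg e4]), rank_neg_X]
    rcases hx2.eq_or_lt with h8 | h8
    · rw [h8]
      refine inRow_self ?_ g5
      show rank (c + X (k + 1)) = k + 1
      rw [hb (X (k + 1)) (by rw [abs_of_nonneg e4]), rank_X]
    · exact (g2 x h7 h8).parent hj1 hj2

/-- Three consecutive crossings in row `j` of level `k`, around the centre. -/
def Tr (b k : ℕ) (j : ℤ) : Set (ℤ × ℤ → Bool) := (Ev b k j (-D k) ∩ Ev b k j 0) ∩ Ev b k j (D k)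

/-- A closed circuit around the centre between level `k` and level `k + 1`. -/
def Circ (b k : ℕ) : Set (ℤ × ℤ → Bool) :=
  (({ω | ω (-X (k + 1), 0) = false} ∩ {ω | ω (X (k + 1), 0) = false}) ∩
    ⋃ j ∈ Finset.Icc (1 : ℤ) b, Tr b k j) ∩ ⋃ j ∈ Finset.Icc (-b : ℤ) (-1), Tr b k j

lemma surrounded_of_Circ {b k : ℕ} {ω : ℤ × ℤ → Bool} (hω : ω ∈ Circ b k) {v : ℤ × ℤ}
    (hv1 : |v.1| ≤ X k) (hv2 : InRow b k 0 v) : Surrounded b ω v := by
  obtain ⟨⟨⟨h1, h2⟩, h3⟩, h4⟩ := hω
  simp only [Set.mem_iUnion, Finset.mem_Icc] at h3 h4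
  obtain ⟨j, ⟨hj1, hj2⟩, ⟨h5, h6⟩, h7⟩ := h3
  obtain ⟨i, ⟨hi1, hi2⟩, ⟨h8, h9⟩, h10⟩ := h4
  have hb := Blk_zero (k + 1)
  have hbl : Blk k (-D k) := by have := hb.left; rwa [zero_sub] at this
  have hbr : Blk k (D k) := by have := hb.right; rwa [zero_add] at this
  have e1 := X_lt_succ k
  obtain ⟨u, u1, u2, u3, u4, u5⟩ := cross_succ (b := b) (ω := ω) (y := 0) (j := j) hb
    (by rw [zero_sub]; exact h1) (by rw [zero_add]; exact h2) (by linarith) (by linarith)
    (by rw [zero_sub]; exact cross_of_Ev b k j _ hbl ω h5) (cross_of_Ev b k j _ hb.mid ω h6)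
    (by rw [zero_add]; exact cross_of_Ev b k j _ hbr ω h7)
  obtain ⟨l, l1, l2, l3, l4, l5⟩ := cross_succ (b := b) (ω := ω) (y := 0) (j := i) hb
    (by rw [zero_sub]; exact h1) (by rw [zero_add]; exact h2) (by linarith) (by linarith)
    (by rw [zero_sub]; exact cross_of_Ev b k i _ hbl ω h8) (cross_of_Ev b k i _ hb.mid ω h9)
    (by rw [zero_add]; exact cross_of_Ev b k i _ hbr ω h10)
  simp only [zero_sub, zero_add] at u1 u2 u3 u4 u5 l1 l2 l3 l4 l5
  obtain ⟨hx1, hx2⟩ := abs_le.mp hv1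
  refine ⟨-X (k + 1), X (k + 1), u, l, u3, l3, by rw [u4, l4], by rw [u5, l5],
    fun x hx1 hx2 => ⟨u1 x hx1 hx2, l1 x hx1 hx2⟩, by linarith, by linarith, ?_, ?_⟩
  · -- the lower crossing is below `v`
    have hrow := l2 v.1 (by linarith) (by linarith)
    unfold InRow at hrow hv2
    simp only at hrow
    have hB : 0 < B b ^ k := pow_pos (B_pos b) k
    have hB' : 0 < B b ^ rank v.1 := pow_pos (B_pos b) _
    by_contra hcon
    have h11 := mul_le_mul_of_nonneg_left (not_lt.mp hcon) hB'.le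
    have h12 := mul_le_mul_of_nonneg_left (show i ≤ -1 by linarith) hB.le
    have h13 := (abs_lt.mp (show |B b ^ rank v.1 * v.2 - B b ^ k * 0| < B b ^ k by
      have := abs_nonneg (B b ^ rank v.1 * v.2 - B b ^ k * 0); linarith)).1
    have h14 := le_abs_self (B b ^ rank v.1 * l v.1 - B b ^ k * i)
    have h15 := neg_abs_le (B b ^ rank v.1 * v.2 - B b ^ k * 0)
    nlinarith
  · have hrow := u2 v.1 (by linarith) (by linarith)
    unfold InRow at hrow hv2
    simp only at hrow
    have hB : 0 < B b ^ k := pow_pos (B_pos b) k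
    have hB' : 0 < B b ^ rank v.1 := pow_pos (B_pos b) _
    by_contra hcon
    have h11 := mul_le_mul_of_nonneg_left (not_lt.mp hcon) hB'.le
    have h12 := mul_le_mul_of_nonneg_left (show 1 ≤ j by linarith) hB.le
    have h14 := neg_abs_le (B b ^ rank v.1 * u v.1 - B b ^ k * j)
    have h15 := le_abs_self (B b ^ rank v.1 * v.2 - B b ^ k * 0)
    nlinarith

end Pool.Agent.Lib.MP_92f966_pr
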