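import Pool.Agent.Lib.MP_92f966_pr.Plane

/-!
# The faces are triangles
-/

set_option autoImplicit false

namespace Pool.Agent.Lib.MP_92f966_pr

/-- The closed cell between the rungs `n` and `n + 1` of the strip `x`. -/
def T (b : ℕ) (x n : ℤ) : Set (ℝ × ℝ) :=
  {w | (x : ℝ) ≤ w.1 ∧ w.1 ≤ x + 1 ∧ hgt b x n (w.1 - x) ≤ w.2 ∧
    w.2 ≤ hgt b x (n + 1) (w.1 - x)}

/-- The open cell between the rungs `n` and `n + 1` of the strip `x`. -/
def O (b : ℕ) (x n : ℤ) : Set (ℝ × ℝ) :=
  {w | (x : ℝ) < w.1 ∧ w.1 < x + 1 ∧ hgt b x n (w.1 - x) < w.2 ∧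
    w.2 < hgt b x (n + 1) (w.1 - x)}

lemma continuous_hgt (b : ℕ) (x n : ℤ) : Continuous (fun w : ℝ × ℝ => hgt b x n (w.1 - x)) := by
  unfold hgt
  fun_prop

lemma T_closed (b : ℕ) (x n : ℤ) : IsClosed (T b x n) := by
  refine (isClosed_le continuous_const continuous_fst).inter
    ((isClosed_le continuous_fst continuous_const).inter
    ((isClosed_le (continuous_hgt b x n) continuous_snd).inter
    (isClosed_le continuous_snd (continuous_hgt b x (n + 1)))))

lemma O_open (b : ℕ) (x n : ℤ) : IsOpen (O b x n) := by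
  refine (isOpen_lt continuous_const continuous_fst).inter
    ((isOpen_lt continuous_fst continuous_const).inter
    ((isOpen_lt (continuous_hgt b x n) continuous_snd).inter
    (isOpen_lt continuous_snd (continuous_hgt b x (n + 1)))))

lemma O_sub_T (b : ℕ) (x n : ℤ) : O b x n ⊆ T b x n :=
  fun _ h => ⟨h.1.le, h.2.1.le, h.2.2.1.le, h.2.2.2.le⟩

/-- `hgt` is affine. -/
lemma hgt_affine (b : ℕ) (x n : ℤ) (s t u v : ℝ) (hst : s + t = 1) :
    hgt b x n (s * u + t * v) = s * hgt b x n u + t * hgt b x n v := by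
  have hs : s = 1 - t := by linarith
  subst hs
  unfold hgt
  ring

lemma O_convex (b : ℕ) (x n : ℤ) : Convex ℝ (O b x n) := by
  rw [convex_iff_forall_pos]
  rintro u ⟨u1, u2, u3, u4⟩ v ⟨v1, v2, v3, v4⟩ s t hs ht hst
  have e : s * u.1 + t * v.1 - x = s * (u.1 - x) + t * (v.1 - x) := by
    have : s = 1 - t := by linarith
    subst this; ring
  have hx : s * (x : ℝ) + t * x = x := by rw [← add_mul, hst, one_mul]
  refine ⟨?_, ?_, ?_, ?_⟩
  · show (x : ℝ) < s * u.1 + t * v.1
    have h1 := mul_lt_mul_of_pos_left u1 hs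
    have h2 := mul_lt_mul_of_pos_left v1 ht
    linarith
  · show s * u.1 + t * v.1 < x + 1
    have h1 := mul_lt_mul_of_pos_left u2 hs
    have h2 := mul_lt_mul_of_pos_left v2 ht
    linarith
  · show hgt b x n (s * u.1 + t * v.1 - x) < s * u.2 + t * v.2
    rw [e, hgt_affine _ _ _ _ _ _ _ hst]
    have h1 := mul_lt_mul_of_pos_left u3 hs
    have h2 := mul_lt_mul_of_pos_left v3 ht
    linarith
  · show s * u.2 + t * v.2 < hgt b x (n + 1) (s * u.1 + t * v.1 - x)
    rw [e, hgt_affine _ _ _ _ _ _ _ hst]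
    have h1 := mul_lt_mul_of_pos_left u4 hs
    have h2 := mul_lt_mul_of_pos_left v4 ht
    linarith

lemma T_convex (b : ℕ) (x n : ℤ) : Convex ℝ (T b x n) := by
  rw [convex_iff_forall_pos]
  rintro u ⟨u1, u2, u3, u4⟩ v ⟨v1, v2, v3, v4⟩ s t hs ht hst
  have e : s * u.1 + t * v.1 - x = s * (u.1 - x) + t * (v.1 - x) := by
    have : s = 1 - t := by linarith
    subst this; ring
  have hx : s * (x : ℝ) + t * x = x := by rw [← add_mul, hst, one_mul]
  refine ⟨?_, ?_, ?_, ?_⟩
  · show (x : ℝ) ≤ s * u.1 + t * v.1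
    have h1 := mul_le_mul_of_nonneg_left u1 hs.le
    have h2 := mul_le_mul_of_nonneg_left v1 ht.le
    linarith
  · show s * u.1 + t * v.1 ≤ x + 1
    have h1 := mul_le_mul_of_nonneg_left u2 hs.le
    have h2 := mul_le_mul_of_nonneg_left v2 ht.le
    linarith
  · show hgt b x n (s * u.1 + t * v.1 - x) ≤ s * u.2 + t * v.2
    rw [e, hgt_affine _ _ _ _ _ _ _ hst]
    have h1 := mul_le_mul_of_nonneg_left u3 hs.le
    have h2 := mul_le_mul_of_nonneg_left v3 ht.le
    linarith
  · show s * u.2 + t * v.2 ≤ hgt b x (n + 1) (s * u.1 + t * v.1 - x)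
    rw [e, hgt_affine _ _ _ _ _ _ _ hst]
    have h1 := mul_le_mul_of_nonneg_left u4 hs.le
    have h2 := mul_le_mul_of_nonneg_left v4 ht.le
    linarith

/-- The interior of the closed cell is the open cell. -/
lemma interior_T (b : ℕ) (x n : ℤ) : interior (T b x n) = O b x n := by
  apply Set.Subset.antisymm
  · intro w hw
    rw [mem_interior_iff_mem_nhds, Metric.mem_nhds_iff] at hw
    obtain ⟨ε, hε, hball⟩ := hw
    have hmem : ∀ s t : ℝ, |s| < ε → |t| < ε → (w.1 + s, w.2 + t) ∈ T b x n := by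
      intro s t hs ht
      apply hball
      rw [Metric.mem_ball, Prod.dist_eq, max_lt_iff, Real.dist_eq, Real.dist_eq]
      simpa using ⟨hs, ht⟩
    have h2 : |ε / 2| < ε := by rw [abs_of_pos (by linarith)]; linarith
    have h3 : |-(ε / 2)| < ε := by rw [abs_neg]; exact h2
    have h0 : |(0 : ℝ)| < ε := by rw [abs_zero]; exact hε
    obtain ⟨a1, _, _, _⟩ := hmem (-(ε / 2)) 0 h3 h0
    obtain ⟨_, a2, _, _⟩ := hmem (ε / 2) 0 h2 h0
    obtain ⟨_, _, a3, _⟩ := hmem 0 (-(ε / 2)) h0 h3
    obtain ⟨_, _, _, a4⟩ := hmem 0 (ε / 2) h0 h2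
    simp only [add_zero] at a1 a2 a3 a4
    exact ⟨by linarith, by linarith, by linarith, by linarith⟩
  · exact interior_maximal (O_sub_T b x n) (O_open b x n)

lemma three_mem {p q r : ℝ × ℝ} {s t u : ℝ} (hs : 0 ≤ s) (ht : 0 ≤ t) (hu : 0 ≤ u)
    (h : s + t + u = 1) : s • p + t • q + u • r ∈ convexHull ℝ {p, q, r} := by
  refine mem_convexHull_of_exists_fintype (ι := Fin 3) ![s, t, u] ![p, q, r] ?_ ?_ ?_ ?_
  · intro i; fin_cases i <;> simpa
  · simp [Fin.sum_univ_three, h]
  · intro i; fin_cases i <;> simp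
  · simp [Fin.sum_univ_three]

/-- The closed cell is a triangle spanned by three pairwise adjacent vertices. -/
lemma T_triangle (b : ℕ) (x n : ℤ) : ∃ v₁ v₂ v₃ : ℤ × ℤ, (G b).Adj v₁ v₂ ∧ (G b).Adj v₂ v₃ ∧
    (G b).Adj v₁ v₃ ∧ convexHull ℝ {φ b v₁, φ b v₂, φ b v₃} = T b x n := by
  have hs := S_pos b x
  have hs' := S_pos b (x + 1)
  rcases YZ_step b x n with ⟨h1, h2⟩ | ⟨h1, h2⟩
  · -- one vertex on the left, two on the right
    have hadj2 := adj_n b x (n + 1)
    rw [h1, h2] at hadj2
    refine ⟨(x, Yf b x n), (x + 1, Zf b x n), (x + 1, Zf b x n + 1), adj_n b x n,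
      adj_vert b _ _, hadj2, ?_⟩
    apply Set.Subset.antisymm
    · refine convexHull_min ?_ (T_convex b x n)
      rintro w (rfl | rfl | rfl)
      · simp only [T, φ, Set.mem_ofPred_eq, sub_self, hgt_zero, h1]
        exact ⟨le_refl _, by linarith, le_refl _, le_refl _⟩
      · simp only [T, φ, Set.mem_ofPred_eq]
        push_cast
        rw [add_sub_cancel_left, hgt_one, hgt_one, h2]
        push_cast
        exact ⟨by linarith, le_refl _, le_refl _, by nlinarith⟩
      · simp only [T, φ, Set.mem_ofPred_eq]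
        push_cast
        rw [add_sub_cancel_left, hgt_one, hgt_one, h2]
        push_cast
        exact ⟨by linarith, le_refl _, by nlinarith, le_refl _⟩
    · rintro w ⟨a1, a2, a3, a4⟩
      have e1 : hgt b x (n + 1) (w.1 - x) = hgt b x n (w.1 - x) + (w.1 - x) * S b (x + 1) := by
        unfold hgt; rw [h1, h2]; push_cast; ring
      set σ := (w.2 - hgt b x n (w.1 - x)) / S b (x + 1) with hσ
      have hσ0 : 0 ≤ σ := div_nonneg (by linarith) hs'.le
      have hσ1 : σ ≤ w.1 - x := by rw [hσ, div_le_iff₀ hs']; linarith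
      have hw2 : w.2 = hgt b x n (w.1 - x) + σ * S b (x + 1) := by
        rw [hσ]; field_simp; ring
      have := three_mem (p := φ b (x, Yf b x n)) (q := φ b (x + 1, Zf b x n))
        (r := φ b (x + 1, Zf b x n + 1)) (s := 1 - (w.1 - x)) (t := (w.1 - x) - σ) (u := σ)
        (by linarith) (by linarith) hσ0 (by ring)
      convert this using 1
      ext
      · simp only [φ, Prod.fst_add, Prod.smul_fst, smul_eq_mul]
        push_cast; ring
      · simp only [φ, Prod.snd_add, Prod.smul_snd, smul_eq_mul]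
        rw [hw2]
        unfold hgt
        push_cast; ring
  · -- two vertices on the left, one on the right
    have hadj2 := adj_n b x (n + 1)
    rw [h1, h2] at hadj2
    refine ⟨(x + 1, Zf b x n), (x, Yf b x n), (x, Yf b x n + 1), (adj_n b x n).symm,
      adj_vert b _ _, hadj2.symm, ?_⟩
    apply Set.Subset.antisymm
    · refine convexHull_min ?_ (T_convex b x n)
      rintro w (rfl | rfl | rfl)
      · simp only [T, φ, Set.mem_ofPred_eq]
        push_cast
        rw [add_sub_cancel_left, hgt_one, hgt_one, h2]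
        exact ⟨by linarith, le_refl _, le_refl _, le_refl _⟩
      · simp only [T, φ, Set.mem_ofPred_eq, sub_self, hgt_zero, h1]
        push_cast
        exact ⟨le_refl _, by linarith, le_refl _, by nlinarith⟩
      · simp only [T, φ, Set.mem_ofPred_eq, sub_self, hgt_zero, h1]
        push_cast
        exact ⟨le_refl _, by linarith, by nlinarith, le_refl _⟩
    · rintro w ⟨a1, a2, a3, a4⟩
      have e1 : hgt b x (n + 1) (w.1 - x) = hgt b x n (w.1 - x) + (1 - (w.1 - x)) * S b x := by
        unfold hgt; rw [h1, h2]; push_cast; ring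
      set σ := (w.2 - hgt b x n (w.1 - x)) / S b x with hσ
      have hσ0 : 0 ≤ σ := div_nonneg (by linarith) hs.le
      have hσ1 : σ ≤ 1 - (w.1 - x) := by rw [hσ, div_le_iff₀ hs]; linarith
      have hw2 : w.2 = hgt b x n (w.1 - x) + σ * S b x := by
        rw [hσ]; field_simp; ring
      have := three_mem (p := φ b (x + 1, Zf b x n)) (q := φ b (x, Yf b x n))
        (r := φ b (x, Yf b x n + 1)) (s := w.1 - x) (t := (1 - (w.1 - x)) - σ) (u := σ)
        (by linarith) (by linarith) hσ0 (by ring)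
      convert this using 1
      ext
      · simp only [φ, Prod.fst_add, Prod.smul_fst, smul_eq_mul]
        push_cast; ring
      · simp only [φ, Prod.snd_add, Prod.smul_snd, smul_eq_mul]
        rw [hw2]
        unfold hgt
        push_cast; ring

/-- Vertical lines over the columns are covered by vertical edges. -/
lemma vert_mem_drawing {b : ℕ} {x : ℤ} {z : ℝ × ℝ} (h : z.1 = x) : z ∈ drawing (G b) (φ b) := by
  have hs := S_pos b x
  refine ⟨(x, ⌊z.2 / S b x⌋), (x, ⌊z.2 / S b x⌋ + 1), adj_vert b _ _, ?_⟩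
  rw [mem_vert]
  refine ⟨h, ?_, ?_⟩
  · have := Int.floor_le (z.2 / S b x)
    rw [le_div_iff₀ hs] at this
    linarith
  · have := (Int.lt_floor_add_one (z.2 / S b x)).le
    rw [div_le_iff₀ hs] at this
    linarith

lemma rung_mem_drawing {b : ℕ} {x n : ℤ} {z : ℝ × ℝ} (h1 : (x : ℝ) ≤ z.1) (h2 : z.1 ≤ x + 1)
    (h : z.2 = hgt b x n (z.1 - x)) : z ∈ drawing (G b) (φ b) := by
  refine ⟨_, _, adj_n b x n, ?_⟩
  rw [mem_rung]
  exact ⟨z.1 - x, by linarith, by linarith, by ring, h⟩

/-- The open cells are disjoint from the drawing. -/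
lemma O_disjoint {b : ℕ} {x n : ℤ} {z : ℝ × ℝ} (hz : z ∈ O b x n) : z ∉ drawing (G b) (φ b) := by
  rintro ⟨v, w, hadj, hzs⟩
  obtain ⟨h1, h2, h3, h4⟩ := hz
  rcases edge_cases hadj with ⟨x', y', he⟩ | ⟨x', n', he⟩
  · rw [segment_congr b he, mem_vert] at hzs
    rw [hzs.1] at h1 h2
    have a1 : x < x' := by exact_mod_cast h1
    have a2 : x' < x + 1 := by exact_mod_cast h2
    omega
  · rw [segment_congr b he, mem_rung] at hzs
    obtain ⟨τ, t0, t1, g1, g2⟩ := hzs
    have a1 : x < x' + 1 := by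
      have : (x : ℝ) < x' + 1 := by linarith
      exact_mod_cast this
    have a2 : x' < x + 1 := by
      have : (x' : ℝ) < x + 1 := by linarith
      exact_mod_cast this
    have hx : x' = x := by omega
    subst hx
    have hτ : z.1 - x' = τ := by linarith
    rw [hτ, g2] at h3 h4
    have hm := hgt_mono b x' t0 t1
    rcases le_or_gt n' n with hn | hn
    · have := hm hn
      simp only at this
      linarith
    · have := hm (Int.add_one_le_iff.mpr hn)
      simp only at this
      linarith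

/-- The boundary of the cell is in the drawing. -/
lemma T_diff_O {b : ℕ} {x n : ℤ} {z : ℝ × ℝ} (hz : z ∈ T b x n) (hz' : z ∉ O b x n) :
    z ∈ drawing (G b) (φ b) := by
  obtain ⟨h1, h2, h3, h4⟩ := hz
  by_contra hcon
  apply hz'
  refine ⟨lt_of_le_of_ne h1 ?_, lt_of_le_of_ne h2 ?_, lt_of_le_of_ne h3 ?_, lt_of_le_of_ne h4 ?_⟩
  · intro h; exact hcon (vert_mem_drawing h.symm)
  · intro h
    exact hcon (vert_mem_drawing (x := x + 1) (by rw [h]; push_cast; ring))
  · intro h; exact hcon (rung_mem_drawing h1 h2 h.symm)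
  · intro h; exact hcon (rung_mem_drawing h1 h2 h)

lemma faces (b : ℕ) : ∀ z ∉ drawing (G b) (φ b), ∃ v₁ v₂ v₃ : ℤ × ℤ, (G b).Adj v₁ v₂ ∧
    (G b).Adj v₂ v₃ ∧ (G b).Adj v₁ v₃ ∧
    connectedComponentIn (drawing (G b) (φ b))ᶜ z =
      interior (convexHull ℝ {φ b v₁, φ b v₂, φ b v₃}) := by
  intro z hz
  set x := ⌊z.1⌋ with hx
  have h1 : (x : ℝ) ≤ z.1 := Int.floor_le _
  have h2 : z.1 < x + 1 := Int.lt_floor_add_one _
  have h1' : (x : ℝ) < z.1 := lt_of_le_of_ne h1 (fun h => hz (vert_mem_drawing h.symm))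
  obtain ⟨n, hn1, hn2⟩ := exists_hgt b x (τ := z.1 - x) (by linarith) (by linarith) z.2
  have hn1' : hgt b x n (z.1 - x) < z.2 :=
    lt_of_le_of_ne hn1 (fun h => hz (rung_mem_drawing h1 h2.le h.symm))
  have hzO : z ∈ O b x n := ⟨h1', h2, hn1', hn2⟩
  obtain ⟨v₁, v₂, v₃, a1, a2, a3, hT⟩ := T_triangle b x n
  refine ⟨v₁, v₂, v₃, a1, a2, a3, ?_⟩
  rw [hT, interior_T]
  apply Set.Subset.antisymm
  · refine isPreconnected_connectedComponentIn.subset_left_of_subset_union (O_open b x n)
      (T_closed b x n).isOpen_compl ?_ ?_ ⟨z, mem_connectedComponentIn hz, hzO⟩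
    · rw [Set.disjoint_compl_right_iff_subset]
      exact O_sub_T b x n
    · intro w hw
      have hwd := connectedComponentIn_subset _ _ hw
      by_cases hwT : w ∈ T b x n
      · left
        by_contra hwO
        exact hwd (T_diff_O hwT hwO)
      · right; exact hwT
  · exact (O_convex b x n).isPreconnected.subset_connectedComponentIn hzO
      (fun w hw => O_disjoint hw)

/-- The embedded graph is a plane triangulation. -/
theorem isPlaneTriangulation (b : ℕ) : IsPlaneTriangulation (G b) (φ b) where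
  infinite := inferInstance
  connected := G_connected b
  locallyFinite := neighborSet_finite b
  injective := φ_injective b
  noncrossing := noncrossing b
  properVertices := properVertices b
  properEdges := properEdges b
  faces := faces b

end Pool.Agent.Lib.MP_92f966_pr
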