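import Pool.Agent.Lib.MP_92f966_pr.Rank

/-!
# The graph: columns joined by triangulated strips
-/

set_option autoImplicit false

namespace Pool.Agent.Lib.MP_92f966_pr

/-- The row branching number. -/
def B (b : ℕ) : ℤ := 2 * b + 1

lemma B_pos (b : ℕ) : 0 < B b := by unfold B; positivity

/-- The rungs of the strip between the columns `x` and `x + 1` are enumerated by `n = y + z`, where
`y` and `z` are the indices of the two ends; `Yf b x n` is the left end of rung number `n`. -/
def Yf (b : ℕ) (x n : ℤ) : ℤ :=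
  if rank x = rank (x + 1) then n / 2
  else if rank (x + 1) < rank x then (n + b) / (2 * b + 2)
  else n - (n + b) / (2 * b + 2)

/-- `(x, y)` and `(x + 1, z)` are joined by a rung. -/
def rung (b : ℕ) (x y z : ℤ) : Prop := Yf b x (y + z) = y

lemma ediv_eq_iff' (a q : ℤ) (m : ℤ) (hm : 0 < m) : a / m = q ↔ m * q ≤ a ∧ a < m * q + m := by
  rw [Int.ediv_eq_iff_of_pos hm]
  constructor
  · rintro ⟨h1, h2⟩
    constructor <;> nlinarith
  · rintro ⟨h1, h2⟩
    constructor <;> nlinarith

lemma rung_eq (b : ℕ) (x y z : ℤ) (h : rank x = rank (x + 1)) :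
    rung b x y z ↔ z = y ∨ z = y + 1 := by
  unfold rung Yf
  rw [if_pos h]
  omega

lemma rung_left (b : ℕ) (x y z : ℤ) (h : rank (x + 1) < rank x) :
    rung b x y z ↔ B b * y - b ≤ z ∧ z ≤ B b * y + b + 1 := by
  unfold rung Yf B
  rw [if_neg h.ne', if_pos h, ediv_eq_iff' _ _ _ (by positivity)]
  constructor
  · rintro ⟨h1, h2⟩
    constructor <;> nlinarith
  · rintro ⟨h1, h2⟩
    constructor <;> nlinarith

lemma rung_right (b : ℕ) (x y z : ℤ) (h : rank x < rank (x + 1)) :
    rung b x y z ↔ B b * z - b ≤ y ∧ y ≤ B b * z + b + 1 := by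
  unfold rung Yf B
  rw [if_neg h.ne, if_neg h.not_gt]
  have : y + z - (y + z + b) / (2 * b + 2) = y ↔ (y + z + b) / (2 * b + 2) = z := by omega
  rw [this, ediv_eq_iff' _ _ _ (by positivity)]
  constructor
  · rintro ⟨h1, h2⟩
    constructor <;> nlinarith
  · rintro ⟨h1, h2⟩
    constructor <;> nlinarith

lemma div_step (n : ℤ) (m : ℤ) (hm : 1 < m) : (n + 1) / m = n / m ∨ (n + 1) / m = n / m + 1 := by
  have h0 : 0 < m := by linarith
  have h1 := Int.emod_nonneg n h0.ne'
  have h2 := Int.emod_lt_of_pos n h0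
  have h3 := Int.mul_ediv_add_emod n m
  by_cases h : n % m + 1 < m
  · left
    rw [ediv_eq_iff' _ _ _ h0]
    constructor <;> linarith
  · right
    rw [ediv_eq_iff' _ _ _ h0]
    constructor <;> nlinarith

lemma Yf_step (b : ℕ) (x n : ℤ) : Yf b x (n + 1) = Yf b x n ∨ Yf b x (n + 1) = Yf b x n + 1 := by
  unfold Yf
  split_ifs
  · exact div_step n 2 (by norm_num)
  · have := div_step (n + b) (2 * b + 2) (by have : (0 : ℤ) ≤ b := Int.natCast_nonneg b; linarith)
    have e : n + 1 + (b : ℤ) = n + b + 1 := by ring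
    rw [e]
    exact this
  · have := div_step (n + b) (2 * b + 2) (by have : (0 : ℤ) ≤ b := Int.natCast_nonneg b; linarith)
    have e : n + 1 + (b : ℤ) = n + b + 1 := by ring
    rw [e]
    omega

lemma Yf_mono (b : ℕ) (x : ℤ) : Monotone (Yf b x) := by
  refine monotone_int_of_le_succ ?_
  intro n
  rcases Yf_step b x n with h | h <;> omega

lemma Zf_mono (b : ℕ) (x : ℤ) : Monotone (fun n => n - Yf b x n) := by
  refine monotone_int_of_le_succ ?_
  intro n
  rcases Yf_step b x n with h | h <;> simp only [h] <;> omega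

/-- Rungs do not cross. -/
lemma rung_mono {b : ℕ} {x y z y' z' : ℤ} (h : rung b x y z) (h' : rung b x y' z') (hy : y < y') :
    z ≤ z' := by
  unfold rung at h h'
  by_contra hcon
  rcases le_total (y + z) (y' + z') with hle | hle
  · have := Zf_mono b x hle
    simp only [h, h'] at this
    omega
  · have := Yf_mono b x hle
    rw [h, h'] at this
    omega

lemma rung_mono' {b : ℕ} {x y z y' z' : ℤ} (h : rung b x y z) (h' : rung b x y' z') (hz : z < z') :
    y ≤ y' := by
  by_contra hcon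
  have := rung_mono h' h (not_le.mp hcon)
  omega

/-- The graph. -/
def G (b : ℕ) : SimpleGraph (ℤ × ℤ) where
  Adj v w := (v.1 = w.1 ∧ (w.2 = v.2 + 1 ∨ v.2 = w.2 + 1)) ∨
    (w.1 = v.1 + 1 ∧ rung b v.1 v.2 w.2) ∨ (v.1 = w.1 + 1 ∧ rung b w.1 w.2 v.2)
  symm := ⟨by
    rintro v w (⟨h1, h2⟩ | h | h)
    · exact Or.inl ⟨h1.symm, h2.symm⟩
    · exact Or.inr (Or.inr h)
    · exact Or.inr (Or.inl h)⟩
  loopless := ⟨by
    rintro v (⟨-, h | h⟩ | ⟨h, -⟩ | ⟨h, -⟩) <;> omega⟩

lemma G_adj (b : ℕ) (v w : ℤ × ℤ) : (G b).Adj v w ↔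
    (v.1 = w.1 ∧ (w.2 = v.2 + 1 ∨ v.2 = w.2 + 1)) ∨
    (w.1 = v.1 + 1 ∧ rung b v.1 v.2 w.2) ∨ (v.1 = w.1 + 1 ∧ rung b w.1 w.2 v.2) := Iff.rfl

lemma adj_vert (b : ℕ) (x y : ℤ) : (G b).Adj (x, y) (x, y + 1) := Or.inl ⟨rfl, Or.inl rfl⟩

lemma adj_rung {b : ℕ} {x y z : ℤ} (h : rung b x y z) : (G b).Adj (x, y) (x + 1, z) :=
  Or.inr (Or.inl ⟨rfl, h⟩)

/-- The horizontal continuation of a vertex of column `x`, index `y`, into the adjacent
column `x'`. -/
def step (b : ℕ) (x x' y : ℤ) : ℤ :=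
  if rank x = rank x' then y else if rank x' < rank x then B b * y else (y + b) / B b

lemma up_bounds (b : ℕ) (y : ℤ) : B b * ((y + b) / B b) - b ≤ y ∧ y ≤ B b * ((y + b) / B b) + b := by
  have h0 := B_pos b
  have h1 := Int.emod_nonneg (y + b) h0.ne'
  have h2 := Int.emod_lt_of_pos (y + b) h0
  have h3 := Int.mul_ediv_add_emod (y + b) (B b)
  have h4 : B b = 2 * b + 1 := rfl
  constructor <;> linarith

lemma up_unique (b : ℕ) (y z : ℤ) (h1 : B b * z - b ≤ y) (h2 : y ≤ B b * z + b) :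
    (y + b) / B b = z := by
  have h0 := B_pos b
  have h4 : B b = 2 * b + 1 := rfl
  rw [ediv_eq_iff' _ _ _ h0]
  constructor <;> linarith

lemma step_adj_right (b : ℕ) (x y : ℤ) : rung b x y (step b x (x + 1) y) := by
  unfold step
  have hb : (0 : ℤ) ≤ b := Int.natCast_nonneg b
  split_ifs with h1 h2
  · rw [rung_eq b x _ _ h1]
    exact Or.inl rfl
  · rw [rung_left b x _ _ h2]
    constructor <;> linarith
  · have h3 : rank x < rank (x + 1) := by omega
    rw [rung_right b x _ _ h3]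
    have := up_bounds b y
    constructor <;> linarith

lemma step_adj_left (b : ℕ) (x y : ℤ) : rung b x (step b (x + 1) x y) y := by
  unfold step
  have hb : (0 : ℤ) ≤ b := Int.natCast_nonneg b
  split_ifs with h1 h2
  · rw [rung_eq b x _ _ h1.symm]
    exact Or.inl rfl
  · rw [rung_right b x _ _ h2]
    constructor <;> linarith
  · have h3 : rank (x + 1) < rank x := by omega
    rw [rung_left b x _ _ h3]
    have := up_bounds b y
    constructor <;> linarith

lemma step_adj (b : ℕ) (x x' y : ℤ) (h : x' = x + 1 ∨ x' = x - 1) :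
    (G b).Adj (x, y) (x', step b x x' y) := by
  rcases h with h | h
  · subst h
    exact adj_rung (step_adj_right b x y)
  · subst h
    have := step_adj_left b (x - 1) y
    rw [sub_add_cancel] at this
    refine Or.inr (Or.inr ⟨?_, this⟩)
    simp

end Pool.Agent.Lib.MP_92f966_pr
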