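import Pool.Agent.Lib.MP_92f966_pr.Graph
import Pool.Agent.Lib.MP_92f966_pr.Defs

/-!
# Degrees and isoperimetry
-/

set_option autoImplicit false

namespace Pool.Agent.Lib.MP_92f966_pr

/-- Indices `z` such that `(x, y)` and `(x + 1, z)` may be joined. -/
noncomputable def RN (b : ℕ) (x y : ℤ) : Finset ℤ :=
  if rank x = rank (x + 1) then Finset.Icc y (y + 1)
  else if rank (x + 1) < rank x then Finset.Icc (B b * y - b) (B b * y + b + 1)
  else Finset.Icc ((y + b) / B b - 1) ((y + b) / B b)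

/-- Indices `z` such that `(x, z)` and `(x + 1, y)` may be joined. -/
noncomputable def LN (b : ℕ) (x y : ℤ) : Finset ℤ :=
  if rank x = rank (x + 1) then Finset.Icc (y - 1) y
  else if rank (x + 1) < rank x then Finset.Icc ((y + b) / B b - 1) ((y + b) / B b)
  else Finset.Icc (B b * y - b) (B b * y + b + 1)

lemma coarse_bounds (b : ℕ) (y z : ℤ) (h1 : B b * z - b ≤ y) (h2 : y ≤ B b * z + b + 1) :
    (y + b) / B b - 1 ≤ z ∧ z ≤ (y + b) / B b := by
  have h0 := B_pos b
  have hB : B b = 2 * b + 1 := rfl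
  constructor
  · have h3 : (y + b) / B b ≤ z + 1 := by
      have : (y + b) / B b ≤ (B b * (z + 1)) / B b := Int.ediv_le_ediv h0 (by nlinarith)
      rwa [Int.mul_ediv_cancel_left _ h0.ne'] at this
    linarith
  · have : (B b * z) / B b ≤ (y + b) / B b := Int.ediv_le_ediv h0 (by linarith)
    rwa [Int.mul_ediv_cancel_left _ h0.ne'] at this

lemma mem_RN {b : ℕ} {x y z : ℤ} (h : rung b x y z) : z ∈ RN b x y := by
  unfold RN
  split_ifs with h1 h2
  · rw [rung_eq b x y z h1] at h
    rw [Finset.mem_Icc]; omega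
  · rw [rung_left b x y z h2] at h
    rw [Finset.mem_Icc]; exact h
  · have h3 : rank x < rank (x + 1) := by omega
    rw [rung_right b x y z h3] at h
    rw [Finset.mem_Icc]
    exact coarse_bounds b y z h.1 h.2

lemma mem_LN {b : ℕ} {x y z : ℤ} (h : rung b x z y) : z ∈ LN b x y := by
  unfold LN
  split_ifs with h1 h2
  · rw [rung_eq b x z y h1] at h
    rw [Finset.mem_Icc]; omega
  · rw [rung_left b x z y h2] at h
    rw [Finset.mem_Icc]
    exact coarse_bounds b y z h.1 h.2
  · have h3 : rank x < rank (x + 1) := by omega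
    rw [rung_right b x z y h3] at h
    rw [Finset.mem_Icc]; exact h

lemma card_RN (b : ℕ) (x y : ℤ) : (RN b x y).card ≤ 2 * b + 2 := by
  unfold RN
  split_ifs <;> rw [Int.card_Icc] <;> omega

lemma card_LN (b : ℕ) (x y : ℤ) : (LN b x y).card ≤ 2 * b + 2 := by
  unfold LN
  split_ifs <;> rw [Int.card_Icc] <;> omega

/-- A finite set containing all neighbours. -/
noncomputable def NB (b : ℕ) (v : ℤ × ℤ) : Finset (ℤ × ℤ) :=
  ({(v.1, v.2 + 1), (v.1, v.2 - 1)} : Finset (ℤ × ℤ)) ∪
    ((RN b v.1 v.2).image fun z => (v.1 + 1, z)) ∪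
    ((LN b (v.1 - 1) v.2).image fun z => (v.1 - 1, z))

lemma mem_NB {b : ℕ} {v w : ℤ × ℤ} (h : (G b).Adj v w) : w ∈ NB b v := by
  obtain ⟨v1, v2⟩ := v
  obtain ⟨w1, w2⟩ := w
  rw [G_adj] at h
  unfold NB
  simp only [Finset.mem_union, Finset.mem_insert, Finset.mem_singleton, Finset.mem_image,
    Prod.mk.injEq] at h ⊢
  rcases h with ⟨h1, h2 | h2⟩ | ⟨h1, h2⟩ | ⟨h1, h2⟩
  · exact Or.inl (Or.inl (Or.inl ⟨h1.symm, h2⟩))
  · exact Or.inl (Or.inl (Or.inr ⟨h1.symm, by omega⟩))
  · exact Or.inl (Or.inr ⟨w2, mem_RN h2, h1.symm, rfl⟩)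
  · refine Or.inr ⟨w2, mem_LN ?_, by omega, rfl⟩
    have : v1 - 1 = w1 := by omega
    rwa [this]

lemma card_NB (b : ℕ) (v : ℤ × ℤ) : (NB b v).card ≤ 4 * b + 6 := by
  unfold NB
  have h1 := card_RN b v.1 v.2
  have h2 := card_LN b (v.1 - 1) v.2
  have h3 : (({(v.1, v.2 + 1), (v.1, v.2 - 1)} : Finset (ℤ × ℤ))).card ≤ 2 := Finset.card_le_two
  have h4 := Finset.card_image_le (s := RN b v.1 v.2) (f := fun z => (v.1 + 1, z))
  have h5 := Finset.card_image_le (s := LN b (v.1 - 1) v.2) (f := fun z => (v.1 - 1, z))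
  refine (Finset.card_union_le _ _).trans ?_
  have h6 := Finset.card_union_le ({(v.1, v.2 + 1), (v.1, v.2 - 1)} : Finset (ℤ × ℤ))
    ((RN b v.1 v.2).image fun z => (v.1 + 1, z))
  omega

lemma neighborSet_sub (b : ℕ) (v : ℤ × ℤ) : (G b).neighborSet v ⊆ NB b v :=
  fun _ hw => mem_NB hw

lemma neighborSet_finite (b : ℕ) (v : ℤ × ℤ) : ((G b).neighborSet v).Finite :=
  (Finset.finite_toSet _).subset (neighborSet_sub b v)

lemma encard_neighborSet (b : ℕ) (v : ℤ × ℤ) :
    ((G b).neighborSet v).encard ≤ ((4 * b + 6 : ℕ) : ℕ∞) := by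
  refine (Set.encard_le_encard (neighborSet_sub b v)).trans ?_
  rw [Set.encard_coe_eq_coe_finsetCard]
  exact_mod_cast card_NB b v

/-! ### Boundary edges -/

/-- The boundary edges of `A`. -/
def bdry (b : ℕ) (A : Finset (ℤ × ℤ)) : Set ((ℤ × ℤ) × (ℤ × ℤ)) :=
  {p | p.1 ∈ A ∧ p.2 ∉ A ∧ (G b).Adj p.1 p.2}

lemma bdry_finite (b : ℕ) (A : Finset (ℤ × ℤ)) : (bdry b A).Finite := by
  have : bdry b A ⊆ ((A.biUnion fun v => (NB b v).image fun w => (v, w) :
      Finset ((ℤ × ℤ) × (ℤ × ℤ))) : Set ((ℤ × ℤ) × (ℤ × ℤ))) := by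
    rintro ⟨v, w⟩ ⟨h1, _, h3⟩
    simp only [Finset.coe_biUnion, Set.mem_iUnion, Finset.mem_coe, Finset.mem_image,
      Prod.mk.injEq]
    exact ⟨v, h1, w, mem_NB h3, rfl, rfl⟩
  exact (Finset.finite_toSet _).subset this

/-- The boundary edges as a finset. -/
noncomputable def bd (b : ℕ) (A : Finset (ℤ × ℤ)) : Finset ((ℤ × ℤ) × (ℤ × ℤ)) :=
  (bdry_finite b A).toFinset

lemma mem_bd {b : ℕ} {A : Finset (ℤ × ℤ)} {p : (ℤ × ℤ) × (ℤ × ℤ)} :
    p ∈ bd b A ↔ p.1 ∈ A ∧ p.2 ∉ A ∧ (G b).Adj p.1 p.2 := by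
  unfold bd
  rw [Set.Finite.mem_toFinset]
  rfl

lemma edgeBoundary_eq (b : ℕ) (A : Finset (ℤ × ℤ)) : edgeBoundary (G b) A = (bd b A).card := by
  unfold edgeBoundary bd
  rw [← Set.ncard_eq_toFinset_card (bdry b A) (bdry_finite b A)]
  rfl

/-- Every column met by `A` contributes a vertical boundary edge. -/
lemma card_columns (b : ℕ) (A : Finset (ℤ × ℤ)) : (A.image Prod.fst).card ≤ (bd b A).card := by
  have key : ∀ x ∈ A.image Prod.fst, ∃ y, (x, y) ∈ A ∧ (x, y + 1) ∉ A := by
    intro x hx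
    have hne : ((A.filter fun v => v.1 = x).image Prod.snd).Nonempty := by
      obtain ⟨v, hv, rfl⟩ := Finset.mem_image.mp hx
      exact ⟨v.2, Finset.mem_image.mpr ⟨v, Finset.mem_filter.mpr ⟨hv, rfl⟩, rfl⟩⟩
    obtain ⟨y, hy, hmax⟩ := Finset.exists_max_image _ id hne
    obtain ⟨v, hv, rfl⟩ := Finset.mem_image.mp hy
    obtain ⟨hv1, hv2⟩ := Finset.mem_filter.mp hv
    refine ⟨v.2, ?_, ?_⟩
    · rw [← hv2]; exact hv1
    · intro hcon
      have := hmax (v.2 + 1) (Finset.mem_image.mpr ⟨(x, v.2 + 1),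
        Finset.mem_filter.mpr ⟨hcon, rfl⟩, rfl⟩)
      simp only [id_eq] at this
      omega
  choose! f hf1 hf2 using key
  refine Finset.card_le_card_of_injOn (fun x => ((x, f x), (x, f x + 1))) ?_ ?_
  · intro x hx
    exact mem_bd.mpr ⟨hf1 x hx, hf2 x hx, adj_vert b x (f x)⟩
  · intro x _ x' _ h
    exact (Prod.ext_iff.mp (Prod.ext_iff.mp h).1).1

/-! ### Rows -/

/-- The row of level one higher. -/
def up (b : ℕ) (y : ℤ) : ℤ := (y + b) / B b

lemma up_mul (b : ℕ) (y : ℤ) : up b (B b * y) = y :=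
  up_unique b _ _ (by have : (0 : ℤ) ≤ b := Int.natCast_nonneg b; linarith)
    (by have : (0 : ℤ) ≤ b := Int.natCast_nonneg b; linarith)

/-- The row of level `k` of a vertex. -/
def row (b k : ℕ) (v : ℤ × ℤ) : ℤ := (up b)^[k - rank v.1] v.2

lemma rank_adj' {x x' : ℤ} (h : x' = x + 1 ∨ x' = x - 1) :
    rank x' ≤ rank x + 1 ∧ rank x ≤ rank x' + 1 := by
  rcases h with h | h
  · rw [h]; exact rank_adj x
  · have := rank_adj (x - 1)
    rw [sub_add_cancel] at this
    rw [h]; exact ⟨this.2, this.1⟩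

lemma row_step {b k : ℕ} {x x' y : ℤ} (hx : x' = x + 1 ∨ x' = x - 1) (h1 : rank x ≤ k)
    (h2 : rank x' ≤ k) : row b k (x', step b x x' y) = row b k (x, y) := by
  have h3 := rank_adj' hx
  unfold row step
  simp only
  split_ifs with g1 g2
  · rw [g1]
  · have e : k - rank x' = (k - rank x) + 1 := by omega
    rw [e, Function.iterate_succ_apply, up_mul]
  · have e : k - rank x = (k - rank x') + 1 := by omega
    rw [e, Function.iterate_succ_apply]
    rfl

/-- The indices in a column lying in a given row `m` levels higher. -/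
noncomputable def rowset (b : ℕ) : ℕ → ℤ → Finset ℤ
  | 0, η => {η}
  | m + 1, η => (rowset b m η).biUnion fun z => Finset.Icc (B b * z - b) (B b * z + b)

lemma mem_rowset {b : ℕ} (m : ℕ) : ∀ (y η : ℤ), (up b)^[m] y = η → y ∈ rowset b m η := by
  induction m with
  | zero =>
    intro y η h
    simpa [rowset] using h
  | succ m ih =>
    intro y η h
    rw [Function.iterate_succ_apply] at h
    unfold rowset
    rw [Finset.mem_biUnion]
    refine ⟨up b y, ih _ _ h, ?_⟩
    rw [Finset.mem_Icc]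
    exact up_bounds b y

lemma card_rowset (b m : ℕ) (η : ℤ) : (rowset b m η).card ≤ (2 * b + 1) ^ m := by
  induction m with
  | zero => simp [rowset]
  | succ m ih =>
    unfold rowset
    refine Finset.card_biUnion_le.trans ?_
    have : ∀ z ∈ rowset b m η, (Finset.Icc (B b * z - b) (B b * z + b)).card ≤ 2 * b + 1 := by
      intro z _
      rw [Int.card_Icc]
      omega
    refine (Finset.sum_le_card_nsmul _ _ _ this).trans ?_
    rw [smul_eq_mul, pow_succ]
    exact Nat.mul_le_mul_right _ ih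

/-- Walking horizontally inside a run of columns of rank less than `k` from a vertex of `A` to a
column not met by `A`, one finds a boundary edge in the same row of level `k`. -/
lemma exit_edge {b k : ℕ} {A : Finset (ℤ × ℤ)} {v : ℤ × ℤ} (hv : v ∈ A) {c : ℤ}
    (hc : |v.1 - c| < X k) (hb : Blk k c) {x' : ℤ} (hx' : |x' - c| < X k)
    (hxA : x' ∉ A.image Prod.fst) :
    ∃ p ∈ bd b A, |v.1 - p.1.1| < 2 * X k ∧ row b k p.1 = row b k v := by
  -- direction of the walk
  obtain ⟨ε, hε, M, hM⟩ : ∃ ε : ℤ, (ε = 1 ∨ ε = -1) ∧ ∃ M : ℕ, x' = v.1 + ε * M := by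
    rcases le_total v.1 x' with h | h
    · refine ⟨1, Or.inl rfl, (x' - v.1).toNat, ?_⟩
      rw [Int.toNat_of_nonneg (by linarith)]; ring
    · refine ⟨-1, Or.inr rfl, (v.1 - x').toNat, ?_⟩
      rw [Int.toNat_of_nonneg (by linarith)]; ring
  -- the walk
  let P : ℕ → ℤ := fun m => Nat.rec v.2 (fun i y => step b (v.1 + ε * i) (v.1 + ε * (i + 1)) y) m
  have hP0 : P 0 = v.2 := rfl
  have hPs : ∀ m : ℕ, P (m + 1) = step b (v.1 + ε * m) (v.1 + ε * (m + 1)) (P m) := fun m => rfl
  have hrun : ∀ m : ℕ, m ≤ M → |v.1 + ε * m - c| < X k := by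
    intro m hm
    have hm' : (m : ℤ) ≤ M := by exact_mod_cast hm
    have hm0 : (0 : ℤ) ≤ m := Int.natCast_nonneg m
    rw [abs_lt] at hc hx' ⊢
    rw [hM] at hx'
    rcases hε with rfl | rfl
    · constructor <;> linarith
    · constructor <;> linarith
  have hrank : ∀ m : ℕ, m ≤ M → rank (v.1 + ε * m) ≤ k := by
    intro m hm
    have h1 := hrun m hm
    have h2 := hb (v.1 + ε * m - c) h1.le
    rw [add_sub_cancel] at h2
    rw [h2]
    exact (rank_lt h1).le
  have hdir : ∀ m : ℕ, v.1 + ε * ((m : ℤ) + 1) = v.1 + ε * m + 1 ∨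
      v.1 + ε * ((m : ℤ) + 1) = v.1 + ε * m - 1 := by
    intro m
    rcases hε with rfl | rfl
    · left; ring
    · right; ring
  have hrow : ∀ m : ℕ, m ≤ M → row b k (v.1 + ε * m, P m) = row b k v := by
    intro m
    induction m with
    | zero =>
      intro _
      rw [hP0]
      simp
    | succ m ih =>
      intro hm
      have h1 := row_step (b := b) (k := k) (y := P m) (hdir m) (hrank m (by omega)) (by
        have := hrank (m + 1) hm
        push_cast at this
        exact this)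
      rw [hPs]
      push_cast
      rw [h1, ih (by omega)]
  -- first exit
  have hexit : ∃ m : ℕ, m < M ∧ (v.1 + ε * m, P m) ∈ A ∧ (v.1 + ε * ((m : ℤ) + 1), P (m + 1)) ∉ A := by
    by_contra hcon
    push Not at hcon
    have hall : ∀ m : ℕ, m ≤ M → (v.1 + ε * m, P m) ∈ A := by
      intro m
      induction m with
      | zero =>
        intro _
        rw [hP0]
        simpa using hv
      | succ m ih =>
        intro hm
        have := hcon m (by omega) (ih (by omega))
        push_cast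
        exact this
    have h2 := hall M le_rfl
    apply hxA
    rw [Finset.mem_image]
    exact ⟨_, h2, hM.symm⟩
  obtain ⟨m, hm, hin, hout⟩ := hexit
  refine ⟨((v.1 + ε * m, P m), (v.1 + ε * ((m : ℤ) + 1), P (m + 1))), mem_bd.mpr ⟨hin, hout, ?_⟩,
    ?_, hrow m hm.le⟩
  · rw [hPs]
    exact step_adj b _ _ _ (hdir m)
  · have h1 := hrun m hm.le
    have h2 : v.1 - (v.1 + ε * m) = (v.1 - c) - (v.1 + ε * m - c) := by ring
    show |v.1 - (v.1 + ε * m)| < 2 * X k
    rw [h2]
    have := abs_sub (v.1 - c) (v.1 + ε * m - c)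
    linarith

/-- Bound for the number of vertices of `A` of rank less than `k`. -/
lemma card_low {b k : ℕ} {A : Finset (ℤ × ℤ)} (hk : ((bd b A).card : ℤ) < 2 * X k - 1) :
    (A.filter fun v => rank v.1 < k).card ≤
      ((4 * X k).toNat * (2 * b + 1) ^ k) * (bd b A).card := by
  classical
  have hcol := card_columns b A
  have hX := X_nonneg k
  have key : ∀ v ∈ A.filter (fun v => rank v.1 < k),
      ∃ p ∈ bd b A, |v.1 - p.1.1| < 2 * X k ∧ row b k p.1 = row b k v := by
    intro v hv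
    obtain ⟨hv1, hv2⟩ := Finset.mem_filter.mp hv
    obtain ⟨c, hc, hb⟩ := exists_block k v.1 hv2
    have hex : ∃ x' ∈ Finset.Ioo (c - X k) (c + X k), x' ∉ A.image Prod.fst := by
      by_contra hcon
      push Not at hcon
      have h1 : Finset.Ioo (c - X k) (c + X k) ⊆ A.image Prod.fst := hcon
      have h2 := Finset.card_le_card h1
      rw [Int.card_Ioo] at h2
      omega
    obtain ⟨x', hx1, hx2⟩ := hex
    rw [Finset.mem_Ioo] at hx1
    exact exit_edge hv1 hc hb (by rw [abs_lt]; constructor <;> linarith) hx2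
  choose! e he1 he2 he3 using key
  refine (Finset.card_le_mul_card_image_of_maps_to (f := e) (t := bd b A) (fun v hv => he1 v hv)
    ((4 * X k).toNat * (2 * b + 1) ^ k) ?_).trans_eq ?_
  · intro p _
    have hsub : (A.filter (fun v => rank v.1 < k)).filter (fun v => e v = p) ⊆
        (Finset.Ioo (p.1.1 - 2 * X k) (p.1.1 + 2 * X k)).biUnion
          (fun x => (rowset b (k - rank x) (row b k p.1)).image fun y => (x, y)) := by
      intro v hv
      obtain ⟨hv1, hv2⟩ := Finset.mem_filter.mp hv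
      have h2 := he2 v hv1
      have h3 := he3 v hv1
      rw [hv2] at h2 h3
      rw [abs_lt] at h2
      rw [Finset.mem_biUnion]
      refine ⟨v.1, ?_, ?_⟩
      · rw [Finset.mem_Ioo]
        constructor <;> linarith
      · rw [Finset.mem_image]
        exact ⟨v.2, mem_rowset _ _ _ h3.symm, rfl⟩
    refine (Finset.card_le_card hsub).trans ?_
    refine Finset.card_biUnion_le.trans ?_
    have hle : ∀ x ∈ Finset.Ioo (p.1.1 - 2 * X k) (p.1.1 + 2 * X k),
        ((rowset b (k - rank x) (row b k p.1)).image fun y => (x, y)).card ≤ (2 * b + 1) ^ k := by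
      intro x _
      refine Finset.card_image_le.trans ((card_rowset b _ _).trans ?_)
      exact Nat.pow_le_pow_right (by omega) (by omega)
    refine (Finset.sum_le_card_nsmul _ _ _ hle).trans ?_
    rw [smul_eq_mul, Int.card_Ioo]
    refine Nat.mul_le_mul_right _ ?_
    omega
  · rfl

/-- Bound for the number of vertices of `A` of rank at least `k`. -/
lemma card_high {b k : ℕ} (hk : 1 ≤ k) (A : Finset (ℤ × ℤ)) :
    (2 * b + 1) * (A.filter fun v => ¬ rank v.1 < k).card ≤ (bd b A).card + 2 * A.card := by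
  classical
  set T := A.filter (fun v => ¬ rank v.1 < k) with hT
  have key : ∀ v ∈ T, ∃ x', (x' = v.1 + 1 ∨ x' = v.1 - 1) ∧ rank x' + 1 = rank v.1 := by
    intro v hv
    exact exists_lower v.1 (by have := (Finset.mem_filter.mp hv).2; omega)
  choose! nx hnx1 hnx2 using key
  -- the set of pairs (vertex, child number)
  set J : Finset ℤ := Finset.Icc (-b : ℤ) b with hJ
  let g : (ℤ × ℤ) × ℤ → ℤ × ℤ := fun q => (nx q.1, B b * q.1.2 + q.2)
  have hadj : ∀ q ∈ T ×ˢ J, (G b).Adj q.1 (g q) := by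
    rintro ⟨v, i⟩ hq
    obtain ⟨hv, hi⟩ := Finset.mem_product.mp hq
    simp only at hv hi
    rw [hJ, Finset.mem_Icc] at hi
    have h1 := hnx1 v hv
    have h2 := hnx2 v hv
    show (G b).Adj v (nx v, B b * v.2 + i)
    rw [G_adj]
    simp only
    rcases h1 with h1 | h1
    · right; left
      refine ⟨h1, ?_⟩
      rw [rung_left b _ _ _ (by rw [← h1]; omega)]
      constructor <;> linarith
    · right; right
      refine ⟨by omega, ?_⟩
      have h3 : nx v + 1 = v.1 := by omega
      rw [rung_right b _ _ _ (by rw [h3]; omega)]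
      constructor <;> linarith
  have hup : ∀ q ∈ T ×ˢ J, up b (g q).2 = q.1.2 := by
    rintro ⟨v, i⟩ hq
    obtain ⟨_, hi⟩ := Finset.mem_product.mp hq
    simp only at hi
    rw [hJ, Finset.mem_Icc] at hi
    exact up_unique b _ _ (by show B b * v.2 - b ≤ B b * v.2 + i; linarith)
      (by show B b * v.2 + i ≤ B b * v.2 + b; linarith)
  have hsplit := Finset.card_filter_add_card_filter_not (s := T ×ˢ J) (p := fun q => g q ∈ A)
  have hcard : (T ×ˢ J).card = (2 * b + 1) * T.card := by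
    rw [Finset.card_product, hJ, Int.card_Icc, mul_comm]
    congr 1
    omega
  have h1 : ((T ×ˢ J).filter fun q => ¬ g q ∈ A).card ≤ (bd b A).card := by
    refine Finset.card_le_card_of_injOn (fun q => (q.1, g q)) ?_ ?_
    · intro q hq
      obtain ⟨hq1, hq2⟩ := Finset.mem_filter.mp (Finset.mem_coe.mp hq)
      exact mem_bd.mpr ⟨(Finset.mem_filter.mp (Finset.mem_product.mp hq1).1).1, hq2, hadj q hq1⟩
    · intro q _ q' _ h
      obtain ⟨h1, h2⟩ := Prod.ext_iff.mp h
      simp only at h1 h2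
      have h3 := (Prod.ext_iff.mp h2).2
      simp only [g] at h3
      rw [h1] at h3
      exact Prod.ext h1 (by linarith)
  have h2 : ((T ×ˢ J).filter fun q => g q ∈ A).card ≤ 2 * A.card := by
    have : 2 * A.card = (A ×ˢ (Finset.univ : Finset Bool)).card := by
      rw [Finset.card_product, Finset.card_univ, Fintype.card_bool, mul_comm]
    rw [this]
    refine Finset.card_le_card_of_injOn (fun q => (g q, decide (nx q.1 = q.1.1 + 1))) ?_ ?_
    · intro q hq
      obtain ⟨_, hq2⟩ := Finset.mem_filter.mp (Finset.mem_coe.mp hq)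
      exact Finset.mem_coe.mpr (Finset.mem_product.mpr ⟨hq2, Finset.mem_univ _⟩)
    · intro q hq q' hq' h
      obtain ⟨hq1, _⟩ := Finset.mem_filter.mp (Finset.mem_coe.mp hq)
      obtain ⟨hq1', _⟩ := Finset.mem_filter.mp (Finset.mem_coe.mp hq')
      obtain ⟨h1, h2⟩ := Prod.ext_iff.mp h
      simp only at h1 h2
      have u1 := hup q hq1
      have u2 := hup q' hq1'
      rw [h1, u2] at u1
      have n1 := hnx1 q.1 (Finset.mem_product.mp hq1).1
      have n2 := hnx1 q'.1 (Finset.mem_product.mp hq1').1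
      have h3 : nx q.1 = nx q'.1 := (Prod.ext_iff.mp h1).1
      have h4 : B b * q.1.2 + q.2 = B b * q'.1.2 + q'.2 := (Prod.ext_iff.mp h1).2
      have h5 : (nx q.1 = q.1.1 + 1) ↔ (nx q'.1 = q'.1.1 + 1) := by
        rwa [decide_eq_decide] at h2
      have h6 : q.1.1 = q'.1.1 := by
        by_cases h7 : nx q.1 = q.1.1 + 1
        · have := h5.mp h7
          omega
        · have h8 : ¬ nx q'.1 = q'.1.1 + 1 := fun h => h7 (h5.mpr h)
          omega
      have h9 : q.1 = q'.1 := Prod.ext h6 u1.symm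
      refine Prod.ext h9 ?_
      rw [← u1] at h4
      linarith
  omega

end Pool.Agent.Lib.MP_92f966_pr
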