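import Pool.Agent.Lib.MP_92f966_pr.Iso

/-!
# The isoperimetric assumption (I)
-/

set_option autoImplicit false

namespace Pool.Agent.Lib.MP_92f966_pr

lemma card_bound_k {b k : ℕ} (hb : 2 ≤ b) (hk1 : 1 ≤ k) {A : Finset (ℤ × ℤ)}
    (hk : ((bd b A).card : ℤ) < 2 * X k - 1) :
    A.card ≤ 2 * (((4 * X k).toNat * (2 * b + 1) ^ k) * (bd b A).card) + (bd b A).card := by
  have h1 := card_low hk
  have h2 := card_high (b := b) hk1 A
  have h3 := Finset.card_filter_add_card_filter_not (s := A) (p := fun v => rank v.1 < k)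
  set L := (A.filter fun v => rank v.1 < k).card
  set H := (A.filter fun v => ¬ rank v.1 < k).card
  set M := ((4 * X k).toNat * (2 * b + 1) ^ k) * (bd b A).card
  set n := (bd b A).card
  have h4 : A.card ≤ 2 * L + n := by
    by_contra hcon
    push Not at hcon
    have h5 : H = A.card - L := by omega
    have h6 : L ≤ A.card := by omega
    zify [h6] at h5 h2 hcon h3
    have hb' : (2 : ℤ) ≤ b := by exact_mod_cast hb
    have hL : (0 : ℤ) ≤ L := Int.natCast_nonneg L
    have hn : (0 : ℤ) ≤ n := Int.natCast_nonneg n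
    have hH : (0 : ℤ) ≤ H := Int.natCast_nonneg H
    nlinarith
  omega

/-- Polynomial isoperimetric inequality. -/
theorem poly_iso {b : ℕ} (hb : 2 ≤ b) (A : Finset (ℤ × ℤ)) :
    A.card ≤ (3 * (edgeBoundary (G b) A + 3)) ^ (3 * (2 * b + 1) + 2) := by
  rw [edgeBoundary_eq]
  set n := (bd b A).card with hn
  -- choose `k`
  have hex : ∃ k, n + 3 < 2 * 3 ^ k := by
    refine ⟨n + 3, ?_⟩
    have : n + 3 < 3 ^ (n + 3) := Nat.lt_pow_self (by norm_num)
    omega
  classical
  set k := Nat.find hex with hkdef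
  have hk := Nat.find_spec hex
  rw [← hkdef] at hk
  have hk1 : 1 ≤ k := by
    by_contra hcon
    have : k = 0 := by omega
    rw [this] at hk
    simp at hk
  have hk2 : 3 ^ k ≤ 3 * (n + 3) := by
    obtain ⟨m, hm⟩ : ∃ m, k = m + 1 := ⟨k - 1, by omega⟩
    have h1 := Nat.find_min hex (m := m) (by omega)
    rw [hm, pow_succ]
    omega
  have hX : X k = ((3 ^ k : ℕ) : ℤ) - 1 := by unfold X; push_cast; ring
  have hkX : (((bd b A).card : ℕ) : ℤ) < 2 * X k - 1 := by
    rw [hX, ← hn]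
    generalize 3 ^ k = P at hk
    omega
  have h1 := card_bound_k hb hk1 (A := A) hkX
  rw [← hn] at h1
  have h2 : (4 * X k).toNat ≤ 4 * 3 ^ k := by rw [hX]; omega
  set e := 3 * (2 * b + 1) with he
  have h3 : 3 ^ k * (2 * b + 1) ^ k ≤ (3 * (n + 3)) ^ e := by
    rw [← mul_pow, ← he]
    calc e ^ k ≤ (3 ^ e) ^ k := Nat.pow_le_pow_left (Nat.lt_pow_self (by norm_num)).le k
      _ = (3 ^ k) ^ e := by rw [← pow_mul, ← pow_mul, mul_comm]
      _ ≤ _ := Nat.pow_le_pow_left hk2 e
  have h4 : (4 * X k).toNat * (2 * b + 1) ^ k ≤ 4 * (3 * (n + 3)) ^ e := by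
    calc (4 * X k).toNat * (2 * b + 1) ^ k ≤ 4 * 3 ^ k * (2 * b + 1) ^ k :=
          Nat.mul_le_mul_right _ h2
      _ = 4 * (3 ^ k * (2 * b + 1) ^ k) := by ring
      _ ≤ _ := Nat.mul_le_mul_left _ h3
  set W := (3 * (n + 3)) ^ e with hW
  have hW1 : 1 ≤ W := Nat.one_le_pow _ _ (by omega)
  have h5 : A.card ≤ 2 * (4 * W * n) + n :=
    h1.trans (by
      have := Nat.mul_le_mul_right n h4
      omega)
  calc A.card ≤ 2 * (4 * W * n) + n := h5
    _ ≤ 9 * W * n := by nlinarith
    _ ≤ W * (3 * (n + 3)) ^ 2 := by nlinarith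
    _ = (3 * (n + 3)) ^ (e + 2) := by rw [hW, ← pow_add]

/-- The graph satisfies the isoperimetric assumption (I). -/
theorem iso_assumption {b : ℕ} (hb : 2 ≤ b) : IsoperimetricAssumption (G b) := by
  set E : ℕ := 3 * (2 * b + 1) + 2 with hE
  set α : ℝ := 1 / (2 * E) with hα
  have hE0 : (0 : ℝ) < E := by rw [hE]; push_cast; positivity
  have hα0 : 0 < α := by rw [hα]; positivity
  refine ⟨fun m => max 0 (((m : ℝ) ^ α) ^ 2 / 3 - 3) / (1 + Real.log m), ?_, ?_, ?_⟩
  · intro m
    have : 0 ≤ Real.log m := Real.log_natCast_nonneg m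
    positivity
  · -- tends to infinity
    have h1 : Filter.Tendsto (fun m : ℕ => (m : ℝ) ^ α) Filter.atTop Filter.atTop :=
      (tendsto_rpow_atTop hα0).comp tendsto_natCast_atTop_atTop
    have h2 : Filter.Tendsto (fun m : ℕ => ((m : ℝ) ^ α) / (3 * (1 + 1 / α)) - 3)
        Filter.atTop Filter.atTop := by
      refine Filter.tendsto_atTop_add_const_right _ (-3) ?_
      exact h1.atTop_div_const (by positivity)
    refine Filter.tendsto_atTop_mono' _ ?_ h2
    filter_upwards [Filter.eventually_ge_atTop 1] with m hm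
    have hm1 : (1 : ℝ) ≤ m := by exact_mod_cast hm
    have hlog0 : 0 ≤ Real.log m := Real.log_natCast_nonneg m
    set t := (m : ℝ) ^ α with ht
    have ht1 : 1 ≤ t := Real.one_le_rpow hm1 hα0.le
    have hlog : Real.log m ≤ t / α := Real.log_le_rpow_div (by linarith) hα0
    have hden : 1 + Real.log m ≤ (1 + 1 / α) * t := by
      have : t / α = (1 / α) * t := by ring
      rw [this] at hlog
      have h5 : (1 + 1 / α) * t = t + (1 / α) * t := by ring
      rw [h5]
      linarith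
    have hden0 : 0 < 1 + Real.log m := by linarith
    have hc : 0 < 1 + 1 / α := by positivity
    rw [le_div_iff₀ hden0]
    by_cases hcase : t / (3 * (1 + 1 / α)) - 3 ≤ 0
    · exact (mul_nonpos_of_nonpos_of_nonneg hcase hden0.le).trans (le_max_left _ _)
    · push Not at hcase
      refine le_trans ?_ (le_max_right _ _)
      calc (t / (3 * (1 + 1 / α)) - 3) * (1 + Real.log m)
          ≤ (t / (3 * (1 + 1 / α)) - 3) * ((1 + 1 / α) * t) :=
            mul_le_mul_of_nonneg_left hden hcase.le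
        _ = t ^ 2 / 3 - 3 * ((1 + 1 / α) * t) := by field_simp
        _ ≤ t ^ 2 / 3 - 3 := by nlinarith [mul_pos (one_div_pos.mpr hα0) (by linarith : 0 < t)]
  · intro A
    have h1 := poly_iso hb A
    rw [← hE] at h1
    set n := edgeBoundary (G b) A
    set m := A.card
    have hlog0 : 0 ≤ Real.log m := Real.log_natCast_nonneg m
    have hden0 : 0 < 1 + Real.log m := by linarith
    have h2 : ((m : ℝ) ^ α) ^ 2 ≤ 3 * ((n : ℝ) + 3) := by
      rw [← Real.rpow_natCast, ← Real.rpow_mul (Nat.cast_nonneg m)]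
      have h3 : α * ((2 : ℕ) : ℝ) = 1 / E := by
        rw [hα]; push_cast; field_simp
      rw [h3]
      have h4 : (m : ℝ) ≤ (3 * ((n : ℝ) + 3)) ^ E := by exact_mod_cast h1
      calc (m : ℝ) ^ (1 / (E : ℝ)) ≤ ((3 * ((n : ℝ) + 3)) ^ E) ^ (1 / (E : ℝ)) :=
            Real.rpow_le_rpow (Nat.cast_nonneg m) h4 (by positivity)
        _ = 3 * (n + 3) := by
            rw [one_div]
            exact Real.pow_rpow_inv_natCast (by positivity) (by omega)
    have h5 : max (0 : ℝ) (((m : ℝ) ^ α) ^ 2 / 3 - 3) ≤ (n : ℝ) :=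
      max_le (Nat.cast_nonneg n) (by linarith)
    rw [div_mul_eq_mul_div, div_le_iff₀ hden0]
    have hn0 : (0 : ℝ) ≤ n := Nat.cast_nonneg n
    calc max (0 : ℝ) (((m : ℝ) ^ α) ^ 2 / 3 - 3) * Real.log m ≤ (n : ℝ) * Real.log m :=
          mul_le_mul_of_nonneg_right h5 hlog0
      _ ≤ n * (1 + Real.log m) := mul_le_mul_of_nonneg_left (by linarith) hn0

end Pool.Agent.Lib.MP_92f966_pr
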