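import Pool.Agent.Lib.MP_92f966_pr.Perc

/-!
# Absence of an infinite open cluster
-/

set_option autoImplicit false

namespace Pool.Agent.Lib.MP_92f966_pr

open MeasureTheory ProbabilityTheory

lemma Tr_eq (b k : ℕ) (j : ℤ) : Tr b k j = Tri b k j 0 := by
  unfold Tr Tri
  rw [zero_sub, zero_add]

lemma Bl_center_sub (b k : ℕ) : Bl b k 0 0 ⊆ Bl b (k + 1) 0 0 := by
  refine Bl_sub ?_ ?_ ?_
  · simp
  · simp
  · simp [(D_pos k).le]

lemma Bl_center_mono (b : ℕ) {k k' : ℕ} (h : k ≤ k') : Bl b k 0 0 ⊆ Bl b k' 0 0 := by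
  induction k', h using Nat.le_induction with
  | base => exact subset_rfl
  | succ n _ ih => exact ih.trans (Bl_center_sub b n)

/-- The vertices of the central level `k + 1` block outside the central level `k` block. -/
def Ring (b k : ℕ) : Set (ℤ × ℤ) := Bl b (k + 1) 0 0 \ Bl b k 0 0

lemma Ring_disjoint {b k k' : ℕ} (h : k ≠ k') : Disjoint (Ring b k) (Ring b k') := by
  rw [Set.disjoint_left]
  rintro v ⟨h1, h2⟩ ⟨h3, h4⟩
  rcases lt_or_gt_of_ne h with h5 | h5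
  · exact h4 (Bl_center_mono b h5 h1)
  · exact h2 (Bl_center_mono b h5 h3)

lemma TriS_sub_Ring {b k : ℕ} {j : ℤ} (hj0 : j ≠ 0) (hj1 : -(b : ℤ) ≤ j) (hj2 : j ≤ b) :
    TriS b k j 0 ⊆ Ring b k := by
  intro v hv
  have h1 := TriS_sub (b := b) (k := k) (y := 0) (c := 0) (by simpa using hj1) (by simpa using hj2) hv
  have e1 := X_succ k
  refine ⟨⟨by linarith [h1.1], h1.2⟩, ?_⟩
  rintro ⟨-, h3⟩
  rcases hv with (⟨_, h4⟩ | ⟨_, h4⟩) | ⟨_, h4⟩ <;> exact hj0 (h4.unique h3)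

lemma end_mem_Ring (b k : ℕ) :
    ((-X (k + 1), 0) : ℤ × ℤ) ∈ Ring b k ∧ ((X (k + 1), 0) : ℤ × ℤ) ∈ Ring b k := by
  have hb := Blk_zero (k + 1)
  have h1 := left_mem_Bl (b := b) (y := 0) hb
  have h2 := right_mem_Bl (b := b) (y := 0) hb
  rw [zero_sub] at h1
  rw [zero_add] at h2
  have e1 := X_lt_succ k
  have e2 := X_nonneg (k + 1)
  refine ⟨⟨h1, ?_⟩, ⟨h2, ?_⟩⟩
  · rintro ⟨h3, -⟩
    simp only [sub_zero, abs_neg, abs_of_nonneg e2] at h3
    linarith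
  · rintro ⟨h3, -⟩
    simp only [sub_zero, abs_of_nonneg e2] at h3
    linarith

lemma union_TriS_sub {b k : ℕ} {J : Finset ℤ} (hJ : ∀ j ∈ J, j ≠ 0 ∧ -(b : ℤ) ≤ j ∧ j ≤ b) :
    (⋃ j ∈ J, TriS b k j 0) ⊆ Ring b k := by
  refine Set.iUnion₂_subset ?_
  intro j hj
  obtain ⟨h1, h2, h3⟩ := hJ j hj
  exact TriS_sub_Ring h1 h2 h3

lemma hJ1 (b : ℕ) : ∀ j ∈ Finset.Icc (1 : ℤ) b, j ≠ 0 ∧ -(b : ℤ) ≤ j ∧ j ≤ b := by
  intro j hj
  rw [Finset.mem_Icc] at hj
  omega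

lemma hJ2 (b : ℕ) : ∀ j ∈ Finset.Icc (-b : ℤ) (-1), j ≠ 0 ∧ -(b : ℤ) ≤ j ∧ j ≤ b := by
  intro j hj
  rw [Finset.mem_Icc] at hj
  omega

lemma Circ_eq (b k : ℕ) : Circ b k =
    (({ω | ω (-X (k + 1), 0) = false} ∩ {ω | ω (X (k + 1), 0) = false}) ∩
    ⋃ j ∈ Finset.Icc (1 : ℤ) b, Tri b k j 0) ∩ ⋃ j ∈ Finset.Icc (-b : ℤ) (-1), Tri b k j 0 := by
  unfold Circ
  simp only [Tr_eq]

lemma measurable_Circ (b k : ℕ) : MeasurableSet[sig (Ring b k)] (Circ b k) := by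
  have hb := Blk_zero (k + 1)
  rw [Circ_eq]
  refine MeasurableSet.inter (MeasurableSet.inter (MeasurableSet.inter ?_ ?_) ?_) ?_
  · exact measurable_site (end_mem_Ring b k).1 false
  · exact measurable_site (end_mem_Ring b k).2 false
  · exact sig_mono (union_TriS_sub (hJ1 b)) _ (measurable_union_Tri hb _)
  · exact sig_mono (union_TriS_sub (hJ2 b)) _ (measurable_union_Tri hb _)

lemma prob_Circ {b : ℕ} (p : unitInterval) (q : ℝ) (hq : q = 1 - (p : ℝ))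
    (hab : (1 - (q ^ 2 / 2) ^ 3) ^ b ≤ 1 / 2) (k : ℕ) :
    q ^ 2 / 4 ≤ (siteMeasure (ℤ × ℤ) p).real (Circ b k) := by
  have hp0 : 0 ≤ (p : ℝ) := p.2.1
  have hp1 : (p : ℝ) ≤ 1 := p.2.2
  have hq0 : 0 ≤ q := by linarith
  have hq1 : q ≤ 1 := by linarith
  have hqq : q ^ 2 ≤ 1 := pow_le_one₀ hq0 hq1
  have hb := Blk_zero (k + 1)
  have e1 := X_succ k
  have e2 := D_eq k
  have e3 := X_nonneg k
  have ih := prob_Ev (b := b) p q hq hab k
  have hU1 := prob_union_Tri (b := b) hb p (q ^ 2 / 2) (by positivity) (by linarith) hab ih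
    (Finset.Icc (1 : ℤ) b) (by rw [Int.card_Icc]; omega)
  have hU2 := prob_union_Tri (b := b) hb p (q ^ 2 / 2) (by positivity) (by linarith) hab ih
    (Finset.Icc (-b : ℤ) (-1)) (by rw [Int.card_Icc]; omega)
  have hm1 := measurable_union_Tri (b := b) hb (Finset.Icc (1 : ℤ) b)
  have hm2 := measurable_union_Tri (b := b) hb (Finset.Icc (-b : ℤ) (-1))
  have hcol : ∀ (J : Finset ℤ), (∀ j ∈ J, j ≠ 0 ∧ -(b : ℤ) ≤ j ∧ j ≤ b) →
      ∀ v ∈ ⋃ j ∈ J, TriS b k j 0, |v.1| ≤ D k + X k := by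
    intro J hJ v hv
    simp only [Set.mem_iUnion] at hv
    obtain ⟨j, hj, hv⟩ := hv
    obtain ⟨_, h2, h3⟩ := hJ j hj
    have := (TriS_sub (b := b) (k := k) (y := 0) (c := 0) (by simpa using h2)
      (by simpa using h3) hv).1
    rwa [sub_zero] at this
  have e4 := X_nonneg (k + 1)
  have hend : ∀ (J : Finset ℤ), (∀ j ∈ J, j ≠ 0 ∧ -(b : ℤ) ≤ j ∧ j ≤ b) →
      Disjoint ({(-X (k + 1), 0), (X (k + 1), 0)} : Set (ℤ × ℤ)) (⋃ j ∈ J, TriS b k j 0) := by
    intro J hJ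
    rw [Set.disjoint_left]
    intro v hv1 hv2
    have h2 := hcol J hJ v hv2
    rcases hv1 with rfl | hv1
    · simp only [abs_neg, abs_of_nonneg e4] at h2
      linarith
    · rw [Set.mem_singleton_iff.mp hv1] at h2
      simp only [abs_of_nonneg e4] at h2
      linarith
  have hrows : Disjoint (⋃ j ∈ Finset.Icc (1 : ℤ) b, TriS b k j 0)
      (⋃ j ∈ Finset.Icc (-b : ℤ) (-1), TriS b k j 0) := by
    rw [Set.disjoint_iUnion₂_left]
    intro i hi
    rw [Set.disjoint_iUnion₂_right]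
    intro j hj
    rw [Finset.mem_Icc] at hi hj
    exact TriS_disjoint (by omega)
  have d2 : Disjoint ({(-X (k + 1), 0)} : Set (ℤ × ℤ)) {(X (k + 1), 0)} := by
    rw [Set.disjoint_singleton]
    intro h
    have := (Prod.ext_iff.mp h).1
    simp only at this
    linarith
  have m1 : MeasurableSet[sig ({(-X (k + 1), 0), (X (k + 1), 0)} : Set (ℤ × ℤ))]
      ({ω | ω (-X (k + 1), 0) = false} ∩ {ω | ω (X (k + 1), 0) = false}) :=
    MeasurableSet.inter (measurable_site (Set.mem_insert _ _) false)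
      (measurable_site (Set.mem_insert_of_mem _ (Set.mem_singleton _)) false)
  have m2 : MeasurableSet[sig (({(-X (k + 1), 0), (X (k + 1), 0)} : Set (ℤ × ℤ)) ∪
      ⋃ j ∈ Finset.Icc (1 : ℤ) b, TriS b k j 0)]
      (({ω | ω (-X (k + 1), 0) = false} ∩ {ω | ω (X (k + 1), 0) = false}) ∩
        ⋃ j ∈ Finset.Icc (1 : ℤ) b, Tri b k j 0) :=
    MeasurableSet.inter (sig_mono Set.subset_union_left _ m1)
      (sig_mono Set.subset_union_right _ hm1)
  have d3 : Disjoint (({(-X (k + 1), 0), (X (k + 1), 0)} : Set (ℤ × ℤ)) ∪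
      ⋃ j ∈ Finset.Icc (1 : ℤ) b, TriS b k j 0)
      (⋃ j ∈ Finset.Icc (-b : ℤ) (-1), TriS b k j 0) := by
    rw [Set.disjoint_union_left]
    exact ⟨hend _ (hJ2 b), hrows⟩
  rw [Circ_eq, real_inter p d3 m2 hm2, real_inter p (hend _ (hJ1 b)) m1 hm1,
    real_inter p d2 (measurable_site (Set.mem_singleton _) false)
    (measurable_site (Set.mem_singleton _) false), prob_closed, prob_closed, ← hq]
  set s1 := (siteMeasure (ℤ × ℤ) p).real (⋃ j ∈ Finset.Icc (1 : ℤ) b, Tri b k j 0)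
  set s2 := (siteMeasure (ℤ × ℤ) p).real (⋃ j ∈ Finset.Icc (-b : ℤ) (-1), Tri b k j 0)
  have h1 : 1 / 4 ≤ s1 * s2 := by nlinarith
  calc q ^ 2 / 4 = q ^ 2 * (1 / 4) := by ring
    _ ≤ q ^ 2 * (s1 * s2) := mul_le_mul_of_nonneg_left h1 (by positivity)
    _ = q * q * s1 * s2 := by ring

lemma mem_Bl_center {b : ℕ} (hb : 1 ≤ b) (v : ℤ × ℤ) : ∃ k, v ∈ Bl b k 0 0 := by
  set t := B b ^ rank v.1 * v.2 with ht
  set k := max v.1.natAbs (2 * |t|).natAbs with hk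
  refine ⟨k, ?_, ?_⟩
  · rw [sub_zero]
    exact (abs_le_X v.1).trans (X_mono (le_max_left _ _))
  · unfold InRow
    rw [mul_zero, sub_zero, ← ht]
    have h1 : ((2 * |t|).natAbs : ℤ) = 2 * |t| := by
      rw [Int.natCast_natAbs, abs_of_nonneg (by positivity)]
    rw [← h1]
    have h2 : (2 * |t|).natAbs < 3 ^ k :=
      lt_of_lt_of_le (Nat.lt_pow_self (by norm_num)) (Nat.pow_le_pow_right (by norm_num)
        (le_max_right _ _))
    have h3 : ((3 : ℤ)) ^ k ≤ B b ^ k := by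
      refine pow_le_pow_left₀ (by norm_num) ?_ k
      unfold B
      have : (1 : ℤ) ≤ b := by exact_mod_cast hb
      linarith
    calc ((2 * |t|).natAbs : ℤ) < 3 ^ k := by exact_mod_cast h2
      _ ≤ _ := h3

/-- There is almost surely no infinite open cluster if closed sites are frequent enough. -/
theorem no_infinite_cluster {b : ℕ} (hb : 1 ≤ b) (p : unitInterval) (q : ℝ)
    (hq : q = 1 - (p : ℝ)) (hq0 : 0 < q) (hab : (1 - (q ^ 2 / 2) ^ 3) ^ b ≤ 1 / 2) :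
    siteMeasure (ℤ × ℤ) p {ω | HasInfiniteCluster (G b) ω} = 0 := by
  have hp0 : 0 ≤ (p : ℝ) := p.2.1
  have hq1 : q ≤ 1 := by linarith
  have hqq : q ^ 2 ≤ 1 := pow_le_one₀ hq0.le hq1
  have hqq0 : 0 < q ^ 2 := by positivity
  -- the bad events
  set N : ℤ × ℤ → Set (ℤ × ℤ → Bool) := fun v => {ω | ∃ h : ω v = true,
    (((G b).induce {v | ω v = true}).connectedComponentMk ⟨v, h⟩).supp.Infinite} with hN
  have hsub : {ω | HasInfiniteCluster (G b) ω} ⊆ ⋃ v, N v := by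
    rintro ω ⟨C, hC⟩
    induction C using SimpleGraph.ConnectedComponent.ind with
    | h v =>
      rw [Set.mem_iUnion]
      exact ⟨v.1, v.2, hC⟩
  refine measure_mono_null hsub ?_
  rw [measure_iUnion_null_iff]
  intro v
  obtain ⟨k0, hk0⟩ := mem_Bl_center hb v
  have hNsub : ∀ m, N v ⊆ ⋂ k ∈ Finset.Ico k0 (k0 + m), (Circ b k)ᶜ := by
    intro m ω hω
    simp only [Set.mem_iInter, Finset.mem_Ico, Set.mem_compl_iff]
    rintro k ⟨hk, -⟩ hcirc
    obtain ⟨h, hinf⟩ := hω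
    have hv := Bl_center_mono b hk hk0
    have hs : Surrounded b ω v := by
      refine surrounded_of_Circ hcirc ?_ hv.2
      have := hv.1
      rwa [sub_zero] at this
    exact hinf (Surrounded.finite (v := ⟨v, h⟩) hs)
  have hbound : ∀ m, (siteMeasure (ℤ × ℤ) p).real (N v) ≤ (1 - q ^ 2 / 4) ^ m := by
    intro m
    have h1 := prob_inter_compl p (Finset.Ico k0 (k0 + m)) (fun k => Circ b k)
      (fun k => Ring b k) (fun k _ => measurable_Circ b k)
      (fun i _ j _ hij => Ring_disjoint hij) (q ^ 2 / 4) (by linarith)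
      (fun k _ => prob_Circ p q hq hab k)
    rw [Nat.card_Ico, Nat.add_sub_cancel_left] at h1
    exact (measureReal_mono (hNsub m)).trans h1
  have hlim : Filter.Tendsto (fun m : ℕ => (1 - q ^ 2 / 4) ^ m) Filter.atTop (nhds 0) :=
    tendsto_pow_atTop_nhds_zero_of_lt_one (by linarith) (by linarith)
  have hle : (siteMeasure (ℤ × ℤ) p).real (N v) ≤ 0 :=
    ge_of_tendsto hlim (Filter.Eventually.of_forall hbound)
  have h0 : (siteMeasure (ℤ × ℤ) p).real (N v) = 0 := le_antisymm hle measureReal_nonneg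
  rw [measureReal_def, ENNReal.toReal_eq_zero_iff] at h0
  exact h0.resolve_right (measure_ne_top _ _)

end Pool.Agent.Lib.MP_92f966_pr
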