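import Pool.Agent.Lib.MP_92f966_pr.Cross

/-!
# Probability estimates
-/

set_option autoImplicit false

namespace Pool.Agent.Lib.MP_92f966_pr

open MeasureTheory ProbabilityTheory

section General

variable {V : Type}

/-- The σ-algebra generated by the sites in `S`. -/
@[reducible]
def sig (S : Set V) : MeasurableSpace (V → Bool) :=
  ⨆ v ∈ S, MeasurableSpace.comap (fun ω : V → Bool => ω v) inferInstance

lemma sig_le (S : Set V) : sig S ≤ (inferInstance : MeasurableSpace (V → Bool)) := by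
  unfold sig
  refine iSup₂_le ?_
  intro v _
  exact (measurable_pi_apply v).comap_le

lemma sig_mono {S T : Set V} (h : S ⊆ T) : sig S ≤ sig T := biSup_mono h

lemma measurable_site {v : V} {S : Set V} (hv : v ∈ S) (x : Bool) :
    MeasurableSet[sig S] {ω : V → Bool | ω v = x} := by
  have h1 : MeasurableSpace.comap (fun ω : V → Bool => ω v) inferInstance ≤ sig S :=
    le_iSup₂_of_le v hv le_rfl
  apply h1
  exact ⟨{x}, trivial, rfl⟩

instance (p : unitInterval) : IsProbabilityMeasure (siteMeasure V p) := by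
  unfold siteMeasure; infer_instance

lemma indep_sig (p : unitInterval) {S T : Set V} (h : Disjoint S T) :
    Indep (sig S) (sig T) (siteMeasure V p) := by
  have h1 : iIndepFun (fun (v : V) (ω : V → Bool) => ω v) (siteMeasure V p) :=
    iIndepFun_infinitePi (X := fun _ x => x) (fun _ => measurable_id)
  rw [iIndepFun_iff_iIndep] at h1
  exact indep_iSup_of_disjoint (fun v => (measurable_pi_apply v).comap_le) h1 h

lemma real_inter (p : unitInterval) {S T : Set V} (h : Disjoint S T) {E F : Set (V → Bool)}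
    (hE : MeasurableSet[sig S] E) (hF : MeasurableSet[sig T] F) :
    (siteMeasure V p).real (E ∩ F) = (siteMeasure V p).real E * (siteMeasure V p).real F := by
  have h1 := (Indep_iff _ _ _).mp (indep_sig p h) E F hE hF
  rw [measureReal_def, measureReal_def, measureReal_def, h1, ENNReal.toReal_mul]

lemma prob_closed (p : unitInterval) (v : V) :
    (siteMeasure V p).real {ω | ω v = false} = 1 - (p : ℝ) := by
  have h1 : {ω : V → Bool | ω v = false} = (fun ω : V → Bool => ω v) ⁻¹' {false} := rfl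
  rw [h1, measureReal_def, ← Measure.map_apply (measurable_pi_apply v) (measurableSet_singleton _)]
  unfold siteMeasure
  rw [Measure.infinitePi_map_eval]
  rw [← measureReal_def, bernoulliMeasure_real_apply_of_notMem_of_mem _
    (measurableSet_singleton _) (by simp) (by simp)]

lemma prob_inter_compl (p : unitInterval) {ι : Type*} [DecidableEq ι] (J : Finset ι)
    (E : ι → Set (V → Bool)) (S : ι → Set V) (hE : ∀ i ∈ J, MeasurableSet[sig (S i)] (E i))
    (hS : ∀ i ∈ J, ∀ j ∈ J, i ≠ j → Disjoint (S i) (S j)) (t : ℝ) (ht : t ≤ 1)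
    (hP : ∀ i ∈ J, t ≤ (siteMeasure V p).real (E i)) :
    (siteMeasure V p).real (⋂ i ∈ J, (E i)ᶜ) ≤ (1 - t) ^ J.card := by
  induction J using Finset.induction_on with
  | empty => simp
  | insert i J hi ih =>
    rw [Finset.card_insert_of_notMem hi, pow_succ', Finset.set_biInter_insert]
    have h1 : MeasurableSet[sig (S i)] (E i)ᶜ :=
      MeasurableSet.compl (hE i (Finset.mem_insert_self i J))
    have h2 : MeasurableSet[sig (⋃ j ∈ J, S j)] (⋂ j ∈ J, (E j)ᶜ) := by
      refine Finset.measurableSet_biInter J ?_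
      intro j hj
      refine MeasurableSet.compl ?_
      exact sig_mono (Set.subset_biUnion_of_mem hj) _ (hE j (Finset.mem_insert_of_mem hj))
    have h3 : Disjoint (S i) (⋃ j ∈ J, S j) := by
      rw [Set.disjoint_iUnion₂_right]
      intro j hj
      exact hS i (Finset.mem_insert_self i J) j (Finset.mem_insert_of_mem hj)
        (fun h => hi (h ▸ hj))
    rw [real_inter p h3 h1 h2]
    have h4 : (siteMeasure V p).real (E i)ᶜ ≤ 1 - t := by
      rw [measureReal_compl (sig_le _ _ (hE i (Finset.mem_insert_self i J))), probReal_univ]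
      linarith [hP i (Finset.mem_insert_self i J)]
    have h5 := ih (fun j hj => hE j (Finset.mem_insert_of_mem hj))
      (fun j hj k hk => hS j (Finset.mem_insert_of_mem hj) k (Finset.mem_insert_of_mem hk))
      (fun j hj => hP j (Finset.mem_insert_of_mem hj))
    exact mul_le_mul h4 h5 measureReal_nonneg (by linarith)

lemma prob_iUnion (p : unitInterval) {ι : Type*} [DecidableEq ι] (J : Finset ι)
    (E : ι → Set (V → Bool)) (S : ι → Set V) (hE : ∀ i ∈ J, MeasurableSet[sig (S i)] (E i))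
    (hS : ∀ i ∈ J, ∀ j ∈ J, i ≠ j → Disjoint (S i) (S j)) (t : ℝ) (ht : t ≤ 1)
    (hP : ∀ i ∈ J, t ≤ (siteMeasure V p).real (E i)) :
    1 - (1 - t) ^ J.card ≤ (siteMeasure V p).real (⋃ i ∈ J, E i) := by
  have h1 := prob_inter_compl p J E S hE hS t ht hP
  have h2 : (⋂ i ∈ J, (E i)ᶜ) = (⋃ i ∈ J, E i)ᶜ := by
    simp only [Set.compl_iUnion]
  have h3 : MeasurableSet (⋃ i ∈ J, E i) :=
    Finset.measurableSet_biUnion J fun i hi => sig_le _ _ (hE i hi)
  rw [h2, measureReal_compl h3, probReal_univ] at h1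
  linarith

end General

/-- The vertices of the level `k` block with centre column `c` and row `y`. -/
def Bl (b k : ℕ) (y c : ℤ) : Set (ℤ × ℤ) := {v | |v.1 - c| ≤ X k ∧ InRow b k y v}

lemma Bl_disjoint_row {b k : ℕ} {y y' c c' : ℤ} (h : y ≠ y') :
    Disjoint (Bl b k y c) (Bl b k y' c') := by
  rw [Set.disjoint_left]
  rintro v ⟨_, h1⟩ ⟨_, h2⟩
  exact h (h1.unique h2)

lemma Bl_disjoint_col {b k : ℕ} {y y' c c' : ℤ} (h : D k ≤ |c - c'|) :
    Disjoint (Bl b k y c) (Bl b k y' c') := by
  rw [Set.disjoint_left]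
  rintro v ⟨h1, _⟩ ⟨h2, _⟩
  have e2 := D_eq k
  have h3 : c - c' = (v.1 - c') - (v.1 - c) := by ring
  rw [h3] at h
  have := abs_sub (v.1 - c') (v.1 - c)
  linarith

lemma Bl_sub {b k : ℕ} {y j c c' : ℤ} (hj1 : B b * y - b ≤ j) (hj2 : j ≤ B b * y + b)
    (hc : |c' - c| ≤ D k) : Bl b k j c' ⊆ Bl b (k + 1) y c := by
  rintro v ⟨h1, h2⟩
  refine ⟨?_, h2.parent hj1 hj2⟩
  have e1 := X_succ k
  have h3 : v.1 - c = (v.1 - c') + (c' - c) := by ring
  rw [h3]
  have := abs_add_le (v.1 - c') (c' - c)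
  linarith

lemma rank_end {k : ℕ} {c : ℤ} (hb : Blk k c) : rank (c - X k) = k ∧ rank (c + X k) = k := by
  have e3 := X_nonneg k
  constructor
  · rw [sub_eq_add_neg, hb (-X k) (by rw [abs_neg, abs_of_nonneg e3]), rank_neg_X]
  · rw [hb (X k) (by rw [abs_of_nonneg e3]), rank_X]

lemma left_mem_Bl {b k : ℕ} {y c : ℤ} (hb : Blk k c) : (c - X k, y) ∈ Bl b k y c := by
  refine ⟨?_, inRow_self (rank_end hb).1 rfl⟩
  have e3 := X_nonneg k
  have : c - X k - c = -X k := by ring
  simp only [this, abs_neg, abs_of_nonneg e3, le_refl]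

lemma right_mem_Bl {b k : ℕ} {y c : ℤ} (hb : Blk k c) : (c + X k, y) ∈ Bl b k y c := by
  refine ⟨?_, inRow_self (rank_end hb).2 rfl⟩
  have e3 := X_nonneg k
  have : c + X k - c = X k := by ring
  simp only [this, abs_of_nonneg e3, le_refl]

/-- The triple crossing of row `j` inside a level `k + 1` block. -/
def Tri (b k : ℕ) (j c : ℤ) : Set (ℤ × ℤ → Bool) :=
  (Ev b k j (c - D k) ∩ Ev b k j c) ∩ Ev b k j (c + D k)

/-- The support of the triple crossing. -/
def TriS (b k : ℕ) (j c : ℤ) : Set (ℤ × ℤ) :=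
  (Bl b k j (c - D k) ∪ Bl b k j c) ∪ Bl b k j (c + D k)

lemma D_pos (k : ℕ) : 0 < D k := by
  have := D_eq k
  have := X_nonneg k
  linarith

lemma TriS_sub {b k : ℕ} {y j c : ℤ} (hj1 : B b * y - b ≤ j) (hj2 : j ≤ B b * y + b) :
    TriS b k j c ⊆ {v | |v.1 - c| ≤ D k + X k ∧ InRow b (k + 1) y v} := by
  have hD := D_pos k
  rintro v ((⟨h1, h2⟩ | ⟨h1, h2⟩) | ⟨h1, h2⟩)
  · refine ⟨?_, h2.parent hj1 hj2⟩
    have h3 : v.1 - c = (v.1 - (c - D k)) - D k := by ring
    rw [h3]
    have := abs_sub (v.1 - (c - D k)) (D k)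
    rw [abs_of_pos hD] at this
    linarith
  · exact ⟨by linarith, h2.parent hj1 hj2⟩
  · refine ⟨?_, h2.parent hj1 hj2⟩
    have h3 : v.1 - c = (v.1 - (c + D k)) + D k := by ring
    rw [h3]
    have := abs_add_le (v.1 - (c + D k)) (D k)
    rw [abs_of_pos hD] at this
    linarith

lemma TriS_disjoint {b k : ℕ} {j j' c : ℤ} (h : j ≠ j') :
    Disjoint (TriS b k j c) (TriS b k j' c) := by
  unfold TriS
  simp only [Set.disjoint_union_left, Set.disjoint_union_right]
  refine ⟨⟨⟨⟨?_, ?_⟩, ?_⟩, ⟨?_, ?_⟩, ?_⟩, ⟨?_, ?_⟩, ?_⟩ <;> exact Bl_disjoint_row h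

lemma measurable_Ev (b k : ℕ) : ∀ (y c : ℤ), Blk k c → MeasurableSet[sig (Bl b k y c)] (Ev b k y c) := by
  induction k with
  | zero =>
    intro y c hb
    refine measurable_site ?_ false
    have := left_mem_Bl (b := b) (y := y) hb
    rw [X_zero, sub_zero] at this
    exact this
  | succ k ih =>
    intro y c hb
    have hD := D_pos k
    unfold Ev
    refine MeasurableSet.inter (MeasurableSet.inter ?_ ?_) ?_
    · exact measurable_site (left_mem_Bl hb) false
    · exact measurable_site (right_mem_Bl hb) false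
    · refine Finset.measurableSet_biUnion _ ?_
      intro j hj
      rw [Finset.mem_Icc] at hj
      refine MeasurableSet.inter (MeasurableSet.inter ?_ ?_) ?_
      · refine sig_mono (Bl_sub hj.1 hj.2 ?_) _ (ih j _ hb.left)
        rw [sub_right_comm, sub_self, zero_sub, abs_neg, abs_of_pos hD]
      · refine sig_mono (Bl_sub hj.1 hj.2 ?_) _ (ih j _ hb.mid)
        rw [sub_self, abs_zero]
        exact hD.le
      · refine sig_mono (Bl_sub hj.1 hj.2 ?_) _ (ih j _ hb.right)
        rw [add_sub_cancel_left, abs_of_pos hD]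

lemma measurable_Tri {b k : ℕ} {j c : ℤ} (hb : Blk (k + 1) c) :
    MeasurableSet[sig (TriS b k j c)] (Tri b k j c) := by
  unfold Tri TriS
  refine MeasurableSet.inter (MeasurableSet.inter ?_ ?_) ?_
  · exact sig_mono (fun v hv => Or.inl (Or.inl hv)) _ (measurable_Ev b k j _ hb.left)
  · exact sig_mono (fun v hv => Or.inl (Or.inr hv)) _ (measurable_Ev b k j _ hb.mid)
  · exact sig_mono (fun v hv => Or.inr hv) _ (measurable_Ev b k j _ hb.right)

lemma prob_Tri {b k : ℕ} {j c : ℤ} (hb : Blk (k + 1) c) (p : unitInterval) (a : ℝ) (ha : 0 ≤ a)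
    (h : ∀ c', Blk k c' → a ≤ (siteMeasure (ℤ × ℤ) p).real (Ev b k j c')) :
    a ^ 3 ≤ (siteMeasure (ℤ × ℤ) p).real (Tri b k j c) := by
  have hD := D_pos k
  unfold Tri
  have d1 : Disjoint (Bl b k j (c - D k) ∪ Bl b k j c) (Bl b k j (c + D k)) := by
    rw [Set.disjoint_union_left]
    constructor
    · refine Bl_disjoint_col ?_
      have : c - D k - (c + D k) = -(2 * D k) := by ring
      rw [this, abs_neg, abs_of_pos (by linarith)]
      linarith
    · refine Bl_disjoint_col ?_
      have : c - (c + D k) = -D k := by ring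
      rw [this, abs_neg, abs_of_pos hD]
  have d2 : Disjoint (Bl b k j (c - D k)) (Bl b k j c) := by
    refine Bl_disjoint_col ?_
    have : c - D k - c = -D k := by ring
    rw [this, abs_neg, abs_of_pos hD]
  rw [real_inter p d1 ?_ (measurable_Ev b k j _ hb.right),
    real_inter p d2 (measurable_Ev b k j _ hb.left) (measurable_Ev b k j _ hb.mid)]
  · have h1 := h _ hb.left
    have h2 := h _ hb.mid
    have h3 := h _ hb.right
    calc a ^ 3 = a * a * a := by ring
      _ ≤ _ := mul_le_mul (mul_le_mul h1 h2 ha (ha.trans h1)) h3 ha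
        (mul_nonneg (ha.trans h1) (ha.trans h2))
  · refine MeasurableSet.inter ?_ ?_
    · exact sig_mono Set.subset_union_left _ (measurable_Ev b k j _ hb.left)
    · exact sig_mono Set.subset_union_right _ (measurable_Ev b k j _ hb.mid)

/-- Uniform lower bound for the union of triple crossings over a set of at least `b` rows. -/
lemma prob_union_Tri {b k : ℕ} {c : ℤ} (hb : Blk (k + 1) c) (p : unitInterval) (a : ℝ)
    (ha : 0 ≤ a) (ha1 : a ≤ 1) (hab : (1 - a ^ 3) ^ b ≤ 1 / 2)
    (h : ∀ j c', Blk k c' → a ≤ (siteMeasure (ℤ × ℤ) p).real (Ev b k j c')) (J : Finset ℤ)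
    (hJ : b ≤ J.card) :
    1 / 2 ≤ (siteMeasure (ℤ × ℤ) p).real (⋃ j ∈ J, Tri b k j c) := by
  have ha3 : a ^ 3 ≤ 1 := pow_le_one₀ ha ha1
  have h1 := prob_iUnion p J (fun j => Tri b k j c) (fun j => TriS b k j c)
    (fun j _ => measurable_Tri hb) (fun i _ j _ hij => TriS_disjoint hij) (a ^ 3) ha3
    (fun j _ => prob_Tri hb p a ha (h j))
  have h2 : (1 - a ^ 3) ^ J.card ≤ (1 - a ^ 3) ^ b :=
    pow_le_pow_of_le_one (by linarith) (by linarith [pow_nonneg ha 3]) hJ
  linarith

lemma measurable_union_Tri {b k : ℕ} {c : ℤ} (hb : Blk (k + 1) c) (J : Finset ℤ) :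
    MeasurableSet[sig (⋃ j ∈ J, TriS b k j c)] (⋃ j ∈ J, Tri b k j c) := by
  refine Finset.measurableSet_biUnion J ?_
  intro j hj
  exact sig_mono (Set.subset_biUnion_of_mem hj) _ (measurable_Tri hb)

/-- Uniform lower bound for closed crossings. -/
lemma prob_Ev {b : ℕ} (p : unitInterval) (q : ℝ) (hq : q = 1 - (p : ℝ))
    (hab : (1 - (q ^ 2 / 2) ^ 3) ^ b ≤ 1 / 2) (k : ℕ) :
    ∀ y c, Blk k c → q ^ 2 / 2 ≤ (siteMeasure (ℤ × ℤ) p).real (Ev b k y c) := by
  have hp0 : 0 ≤ (p : ℝ) := p.2.1
  have hp1 : (p : ℝ) ≤ 1 := p.2.2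
  have hq0 : 0 ≤ q := by linarith
  have hq1 : q ≤ 1 := by linarith
  have hqq : q ^ 2 ≤ 1 := pow_le_one₀ hq0 hq1
  induction k with
  | zero =>
    intro y c hb
    unfold Ev
    rw [prob_closed, ← hq]
    nlinarith
  | succ k ih =>
    intro y c hb
    have e1 := X_succ k
    have e2 := D_eq k
    have e3 := X_nonneg k
    have hU := prob_union_Tri (b := b) hb p (q ^ 2 / 2) (by positivity) (by linarith) hab ih
      (Finset.Icc (B b * y - b) (B b * y + b)) (by
        rw [Int.card_Icc]
        omega)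
    have hUm := measurable_union_Tri (b := b) hb (Finset.Icc (B b * y - b) (B b * y + b))
    have hE : Ev b (k + 1) y c = ({ω | ω (c - X (k + 1), y) = false} ∩
        {ω | ω (c + X (k + 1), y) = false}) ∩
        ⋃ j ∈ Finset.Icc (B b * y - b) (B b * y + b), Tri b k j c := rfl
    have hsub : (⋃ j ∈ Finset.Icc (B b * y - b) (B b * y + b), TriS b k j c) ⊆
        {v | |v.1 - c| ≤ D k + X k} := by
      intro v hv
      simp only [Set.mem_iUnion, Finset.mem_Icc] at hv
      obtain ⟨j, ⟨hj1, hj2⟩, hv⟩ := hv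
      exact (TriS_sub hj1 hj2 hv).1
    have d1 : Disjoint ({(c - X (k + 1), y), (c + X (k + 1), y)} : Set (ℤ × ℤ))
        (⋃ j ∈ Finset.Icc (B b * y - b) (B b * y + b), TriS b k j c) := by
      rw [Set.disjoint_left]
      intro v hv1 hv2
      have h2 : |v.1 - c| ≤ D k + X k := hsub hv2
      rcases hv1 with rfl | hv1
      · have : c - X (k + 1) - c = -X (k + 1) := by ring
        simp only [this, abs_neg, abs_of_nonneg (X_nonneg (k + 1))] at h2
        linarith
      · rw [Set.mem_singleton_iff.mp hv1] at h2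
        have : c + X (k + 1) - c = X (k + 1) := by ring
        simp only [this, abs_of_nonneg (X_nonneg (k + 1))] at h2
        linarith
    have d2 : Disjoint ({(c - X (k + 1), y)} : Set (ℤ × ℤ)) {(c + X (k + 1), y)} := by
      rw [Set.disjoint_singleton]
      intro h
      have := (Prod.ext_iff.mp h).1
      simp only at this
      linarith
    have m1 : MeasurableSet[sig ({(c - X (k + 1), y), (c + X (k + 1), y)} : Set (ℤ × ℤ))]
        ({ω | ω (c - X (k + 1), y) = false} ∩ {ω | ω (c + X (k + 1), y) = false}) :=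
      MeasurableSet.inter (measurable_site (Set.mem_insert _ _) false)
        (measurable_site (Set.mem_insert_of_mem _ (Set.mem_singleton _)) false)
    rw [hE, real_inter p d1 m1 hUm, real_inter p d2 (measurable_site (Set.mem_singleton _) false)
      (measurable_site (Set.mem_singleton _) false), prob_closed, prob_closed, ← hq]
    nlinarith [mul_nonneg hq0 hq0]

end Pool.Agent.Lib.MP_92f966_pr
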