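import Pool.Agent.Lib.MP_92f966_pr.Iso

/-!
# The straight line embedding
-/

set_option autoImplicit false

namespace Pool.Agent.Lib.MP_92f966_pr

/-- Vertical spacing of the vertices in column `x`. -/
noncomputable def S (b : ℕ) (x : ℤ) : ℝ := (2 * (b : ℝ) + 1) ^ rank x

lemma S_ge_one (b : ℕ) (x : ℤ) : 1 ≤ S b x :=
  one_le_pow₀ (by have : (0 : ℝ) ≤ b := Nat.cast_nonneg b; linarith)

lemma S_pos (b : ℕ) (x : ℤ) : 0 < S b x := lt_of_lt_of_le one_pos (S_ge_one b x)

/-- The position of a vertex. -/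
noncomputable def φ (b : ℕ) (v : ℤ × ℤ) : ℝ × ℝ := ((v.1 : ℝ), S b v.1 * v.2)

lemma φ_injective (b : ℕ) : Function.Injective (φ b) := by
  rintro ⟨x, y⟩ ⟨x', y'⟩ h
  obtain ⟨h1, h2⟩ := Prod.ext_iff.mp h
  simp only [φ] at h1 h2
  have hx : x = x' := by exact_mod_cast h1
  subst hx
  have h3 := mul_left_cancel₀ (S_pos b x).ne' h2
  have hy : y = y' := by exact_mod_cast h3
  rw [hy]

/-- Right end of rung number `n` of the strip `x`. -/
def Zf (b : ℕ) (x n : ℤ) : ℤ := n - Yf b x n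

/-- Height of rung number `n` of the strip `x` at horizontal position `x + τ`. -/
noncomputable def hgt (b : ℕ) (x n : ℤ) (τ : ℝ) : ℝ :=
  (1 - τ) * (S b x * Yf b x n) + τ * (S b (x + 1) * Zf b x n)

lemma YZ_step (b : ℕ) (x n : ℤ) :
    (Yf b x (n + 1) = Yf b x n ∧ Zf b x (n + 1) = Zf b x n + 1) ∨
    (Yf b x (n + 1) = Yf b x n + 1 ∧ Zf b x (n + 1) = Zf b x n) := by
  unfold Zf
  rcases Yf_step b x n with h | h
  · left; exact ⟨h, by omega⟩
  · right; exact ⟨h, by omega⟩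

lemma hgt_succ_sub (b : ℕ) (x n : ℤ) (τ : ℝ) :
    hgt b x (n + 1) τ = hgt b x n τ + τ * S b (x + 1) ∨
    hgt b x (n + 1) τ = hgt b x n τ + (1 - τ) * S b x := by
  unfold hgt
  rcases YZ_step b x n with ⟨h1, h2⟩ | ⟨h1, h2⟩
  · left; rw [h1, h2]; push_cast; ring
  · right; rw [h1, h2]; push_cast; ring

lemma hgt_strictMono (b : ℕ) (x : ℤ) {τ : ℝ} (h0 : 0 < τ) (h1 : τ < 1) :
    StrictMono (fun n => hgt b x n τ) := by
  refine strictMono_int_of_lt_succ ?_
  intro n
  have hs := S_pos b x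
  have hs' := S_pos b (x + 1)
  rcases hgt_succ_sub b x n τ with h | h
  · simp only [h]
    have := mul_pos h0 hs'
    linarith
  · simp only [h]
    have := mul_pos (show 0 < 1 - τ by linarith) hs
    linarith

lemma hgt_mono (b : ℕ) (x : ℤ) {τ : ℝ} (h0 : 0 ≤ τ) (h1 : τ ≤ 1) :
    Monotone (fun n => hgt b x n τ) := by
  refine monotone_int_of_le_succ ?_
  intro n
  have hs := S_pos b x
  have hs' := S_pos b (x + 1)
  rcases hgt_succ_sub b x n τ with h | h
  · simp only [h]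
    have := mul_nonneg h0 hs'.le
    linarith
  · simp only [h]
    have := mul_nonneg (show 0 ≤ 1 - τ by linarith) hs.le
    linarith

lemma exists_hgt (b : ℕ) (x : ℤ) {τ : ℝ} (h0 : 0 < τ) (h1 : τ < 1) (h : ℝ) :
    ∃ n, hgt b x n τ ≤ h ∧ h < hgt b x (n + 1) τ := by
  have hs := S_ge_one b x
  have hs' := S_ge_one b (x + 1)
  set δ := min τ (1 - τ) with hδ
  have hδ0 : 0 < δ := lt_min h0 (by linarith)
  have hstep : ∀ n, hgt b x n τ + δ ≤ hgt b x (n + 1) τ := by
    intro n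
    rcases hgt_succ_sub b x n τ with g | g
    · rw [g]
      have : δ ≤ τ := min_le_left _ _
      nlinarith
    · rw [g]
      have : δ ≤ 1 - τ := min_le_right _ _
      nlinarith
  have hup : ∀ m : ℕ, hgt b x 0 τ + δ * m ≤ hgt b x m τ := by
    intro m
    induction m with
    | zero => simp
    | succ m ih =>
      have := hstep m
      push_cast
      linarith
  have hdown : ∀ m : ℕ, hgt b x (-(m : ℤ)) τ ≤ hgt b x 0 τ - δ * m := by
    intro m
    induction m with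
    | zero => simp
    | succ m ih =>
      have := hstep (-((m : ℤ) + 1))
      have e : -((m : ℤ) + 1) + 1 = -(m : ℤ) := by ring
      rw [e] at this
      push_cast
      linarith
  obtain ⟨M, hM⟩ := exists_nat_gt ((h - hgt b x 0 τ) / δ)
  obtain ⟨N, hN⟩ := exists_nat_gt ((hgt b x 0 τ - h) / δ)
  rw [div_lt_iff₀ hδ0] at hM hN
  have hbdd : ∀ n : ℤ, hgt b x n τ ≤ h → n ≤ M := by
    intro n hn
    by_contra hcon
    have h2 := hgt_mono b x h0.le h1.le (not_le.mp hcon).le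
    simp only at h2
    have h3 := hup M
    linarith
  obtain ⟨n, hn1, hn2⟩ := Int.exists_greatest_of_bdd (P := fun n => hgt b x n τ ≤ h)
    ⟨M, hbdd⟩ ⟨-(N : ℤ), by have := hdown N; linarith⟩
  refine ⟨n, hn1, ?_⟩
  by_contra hcon
  have := hn2 (n + 1) (not_lt.mp hcon)
  omega

/-! ### Edges -/

lemma rung_n (b : ℕ) (x n : ℤ) : rung b x (Yf b x n) (Zf b x n) := by
  unfold rung Zf
  rw [add_sub_cancel]

lemma adj_n (b : ℕ) (x n : ℤ) : (G b).Adj (x, Yf b x n) (x + 1, Zf b x n) := adj_rung (rung_n b x n)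

/-- Every edge is vertical or a rung. -/
lemma edge_cases {b : ℕ} {v w : ℤ × ℤ} (h : (G b).Adj v w) :
    (∃ x y, s(v, w) = s((x, y), (x, y + 1))) ∨
    (∃ x n, s(v, w) = s((x, Yf b x n), (x + 1, Zf b x n))) := by
  obtain ⟨v1, v2⟩ := v
  obtain ⟨w1, w2⟩ := w
  rw [G_adj] at h
  simp only at h
  rcases h with ⟨h1, h2 | h2⟩ | ⟨h1, h2⟩ | ⟨h1, h2⟩
  · subst h1 h2
    exact Or.inl ⟨_, _, rfl⟩
  · subst h1 h2
    exact Or.inl ⟨_, _, Sym2.eq_swap⟩
  · subst h1
    refine Or.inr ⟨v1, v2 + w2, ?_⟩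
    have h3 : Yf b v1 (v2 + w2) = v2 := h2
    have h4 : Zf b v1 (v2 + w2) = w2 := by unfold Zf; rw [h3]; ring
    rw [h3, h4]
  · subst h1
    refine Or.inr ⟨w1, w2 + v2, ?_⟩
    have h3 : Yf b w1 (w2 + v2) = w2 := h2
    have h4 : Zf b w1 (w2 + v2) = v2 := by unfold Zf; rw [h3]; ring
    rw [h3, h4]
    exact Sym2.eq_swap

lemma segment_congr (b : ℕ) {v w v' w' : ℤ × ℤ} (h : s(v, w) = s(v', w')) :
    segment ℝ (φ b v) (φ b w) = segment ℝ (φ b v') (φ b w') := by
  rw [Sym2.eq_iff] at h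
  rcases h with ⟨rfl, rfl⟩ | ⟨rfl, rfl⟩
  · rfl
  · exact segment_symm ℝ _ _

/-- The points of a vertical edge. -/
lemma mem_vert {b : ℕ} {x y : ℤ} {z : ℝ × ℝ} :
    z ∈ segment ℝ (φ b (x, y)) (φ b (x, y + 1)) ↔
      z.1 = x ∧ S b x * y ≤ z.2 ∧ z.2 ≤ S b x * (y + 1) := by
  have hs := S_pos b x
  constructor
  · rintro ⟨s, t, hs0, ht0, hst, rfl⟩
    simp only [φ, Prod.smul_mk, Prod.mk_add_mk, smul_eq_mul, Int.cast_add, Int.cast_one]
    have hs1 : s = 1 - t := by linarith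
    subst hs1
    refine ⟨by ring, ?_, ?_⟩
    · nlinarith
    · nlinarith
  · rintro ⟨h1, h2, h3⟩
    refine ⟨1 - (z.2 - S b x * y) / S b x, (z.2 - S b x * y) / S b x, ?_, ?_, by ring, ?_⟩
    · rw [sub_nonneg, div_le_one hs]; linarith
    · exact div_nonneg (by linarith) hs.le
    · simp only [φ, Prod.smul_mk, Prod.mk_add_mk, smul_eq_mul, Int.cast_add, Int.cast_one]
      ext
      · simp only; rw [h1]; ring
      · simp only; field_simp; ring

/-- The points of a rung. -/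
lemma mem_rung {b : ℕ} {x n : ℤ} {z : ℝ × ℝ} :
    z ∈ segment ℝ (φ b (x, Yf b x n)) (φ b (x + 1, Zf b x n)) ↔
      ∃ τ : ℝ, 0 ≤ τ ∧ τ ≤ 1 ∧ z.1 = x + τ ∧ z.2 = hgt b x n τ := by
  constructor
  · rintro ⟨s, t, hs0, ht0, hst, rfl⟩
    refine ⟨t, ht0, by linarith, ?_, ?_⟩
    · simp only [φ, Prod.smul_mk, Prod.mk_add_mk, smul_eq_mul, Int.cast_add, Int.cast_one]
      have hs1 : s = 1 - t := by linarith
      subst hs1
      ring
    · simp only [φ, Prod.smul_mk, Prod.mk_add_mk, smul_eq_mul, hgt]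
      have hs1 : s = 1 - t := by linarith
      rw [hs1]
  · rintro ⟨τ, h0, h1, h2, h3⟩
    refine ⟨1 - τ, τ, by linarith, h0, by ring, ?_⟩
    simp only [φ, Prod.smul_mk, Prod.mk_add_mk, smul_eq_mul, Int.cast_add, Int.cast_one]
    ext
    · simp only; rw [h2]; ring
    · simp only; rw [h3]; rfl

lemma hgt_zero (b : ℕ) (x n : ℤ) : hgt b x n 0 = S b x * Yf b x n := by
  unfold hgt; ring

lemma hgt_one (b : ℕ) (x n : ℤ) : hgt b x n 1 = S b (x + 1) * Zf b x n := by
  unfold hgt; ring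

/-- Two different vertical edges meet at most in a common vertex. -/
lemma cross_VV {b : ℕ} {x y x' y' : ℤ} {z : ℝ × ℝ}
    (h : z ∈ segment ℝ (φ b (x, y)) (φ b (x, y + 1)))
    (h' : z ∈ segment ℝ (φ b (x', y')) (φ b (x', y' + 1)))
    (hne : s(((x, y) : ℤ × ℤ), (x, y + 1)) ≠ s((x', y'), (x', y' + 1))) :
    ∃ v, v ∈ s(((x, y) : ℤ × ℤ), (x, y + 1)) ∧ v ∈ s(((x', y') : ℤ × ℤ), (x', y' + 1)) ∧
      z = φ b v := by
  rw [mem_vert] at h h'
  obtain ⟨h1, h2, h3⟩ := h
  obtain ⟨h1', h2', h3'⟩ := h'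
  have hx : x = x' := by
    have : (x : ℝ) = x' := by rw [← h1, ← h1']
    exact_mod_cast this
  subst hx
  have hs := S_pos b x
  have a1 : y ≤ y' + 1 := by
    have := le_of_mul_le_mul_left (h2.trans h3') hs
    exact_mod_cast this
  have a2 : y' ≤ y + 1 := by
    have := le_of_mul_le_mul_left (h2'.trans h3) hs
    exact_mod_cast this
  have a3 : y ≠ y' := by
    rintro rfl
    exact hne rfl
  rcases (show y' = y + 1 ∨ y = y' + 1 by omega) with h4 | h4
  · subst h4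
    refine ⟨(x, y + 1), by simp, by simp, ?_⟩
    ext
    · exact h1
    · simp only [φ]
      push_cast at h2' ⊢
      linarith
  · subst h4
    refine ⟨(x, y' + 1), by simp, by simp, ?_⟩
    ext
    · exact h1
    · simp only [φ]
      push_cast at h2 ⊢
      linarith

/-- A vertical edge and a rung meet at most in a common vertex. -/
lemma cross_VR {b : ℕ} {x y x' n : ℤ} {z : ℝ × ℝ}
    (h : z ∈ segment ℝ (φ b (x, y)) (φ b (x, y + 1)))
    (h' : z ∈ segment ℝ (φ b (x', Yf b x' n)) (φ b (x' + 1, Zf b x' n))) :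
    ∃ v, v ∈ s(((x, y) : ℤ × ℤ), (x, y + 1)) ∧
      v ∈ s(((x', Yf b x' n) : ℤ × ℤ), (x' + 1, Zf b x' n)) ∧ z = φ b v := by
  rw [mem_vert] at h
  rw [mem_rung] at h'
  obtain ⟨h1, h2, h3⟩ := h
  obtain ⟨τ, t0, t1, h1', h2'⟩ := h'
  have hτ : τ = ((x - x' : ℤ) : ℝ) := by push_cast; linarith
  have b1 : 0 ≤ x - x' := by
    rw [hτ] at t0; exact_mod_cast t0
  have b2 : x - x' ≤ 1 := by
    rw [hτ] at t1; exact_mod_cast t1
  have hs := S_pos b x
  rcases (show x - x' = 0 ∨ x - x' = 1 by omega) with h4 | h4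
  · have hx : x = x' := by omega
    subst hx
    have hτ0 : τ = 0 := by rw [hτ, h4]; simp
    rw [hτ0, hgt_zero] at h2'
    rw [h2'] at h2 h3
    have a1 : y ≤ Yf b x n := by
      have := le_of_mul_le_mul_left h2 hs
      exact_mod_cast this
    have a2 : Yf b x n ≤ y + 1 := by
      have := le_of_mul_le_mul_left h3 hs
      exact_mod_cast this
    refine ⟨(x, Yf b x n), ?_, by simp, ?_⟩
    · rcases (show Yf b x n = y ∨ Yf b x n = y + 1 by omega) with h5 | h5 <;> rw [h5] <;> simp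
    · ext
      · exact h1
      · exact h2'
  · have hx : x = x' + 1 := by omega
    have hτ1 : τ = 1 := by rw [hτ, h4]; simp
    rw [hτ1, hgt_one] at h2'
    subst hx
    rw [h2'] at h2 h3
    have a1 : y ≤ Zf b x' n := by
      have := le_of_mul_le_mul_left h2 hs
      exact_mod_cast this
    have a2 : Zf b x' n ≤ y + 1 := by
      have := le_of_mul_le_mul_left h3 hs
      exact_mod_cast this
    refine ⟨(x' + 1, Zf b x' n), ?_, by simp, ?_⟩
    · rcases (show Zf b x' n = y ∨ Zf b x' n = y + 1 by omega) with h5 | h5 <;> rw [h5] <;> simp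
    · ext
      · exact h1
      · exact h2'

/-- Two different rungs meet at most in a common vertex. -/
lemma cross_RR {b : ℕ} {x n x' n' : ℤ} (hxx : x ≤ x') {z : ℝ × ℝ}
    (h : z ∈ segment ℝ (φ b (x, Yf b x n)) (φ b (x + 1, Zf b x n)))
    (h' : z ∈ segment ℝ (φ b (x', Yf b x' n')) (φ b (x' + 1, Zf b x' n')))
    (hne : ¬ (x = x' ∧ n = n')) :
    ∃ v, v ∈ s(((x, Yf b x n) : ℤ × ℤ), (x + 1, Zf b x n)) ∧
      v ∈ s(((x', Yf b x' n') : ℤ × ℤ), (x' + 1, Zf b x' n')) ∧ z = φ b v := by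
  rw [mem_rung] at h h'
  obtain ⟨τ, t0, t1, h1, h2⟩ := h
  obtain ⟨τ', t0', t1', h1', h2'⟩ := h'
  have hτ : τ = ((x' - x : ℤ) : ℝ) + τ' := by push_cast; linarith
  have b2 : x' - x ≤ 1 := by
    have : ((x' - x : ℤ) : ℝ) ≤ 1 := by linarith
    exact_mod_cast this
  rcases (show x' - x = 0 ∨ x' - x = 1 by omega) with h4 | h4
  · have hx : x = x' := by omega
    subst hx
    have hn : n ≠ n' := fun h => hne ⟨rfl, h⟩
    have hττ : τ = τ' := by rw [hτ, h4]; simp
    subst hττ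
    have heq : hgt b x n τ = hgt b x n' τ := by rw [← h2, ← h2']
    by_cases c0 : τ = 0
    · rw [c0, hgt_zero, hgt_zero] at heq
      have h5 := mul_left_cancel₀ (S_pos b x).ne' heq
      have h6 : Yf b x n = Yf b x n' := by exact_mod_cast h5
      refine ⟨(x, Yf b x n), by simp, by rw [h6]; simp, ?_⟩
      ext
      · rw [h1, c0]; simp [φ]
      · rw [h2, c0, hgt_zero]; rfl
    by_cases c1 : τ = 1
    · rw [c1, hgt_one, hgt_one] at heq
      have h5 := mul_left_cancel₀ (S_pos b (x + 1)).ne' heq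
      have h6 : Zf b x n = Zf b x n' := by exact_mod_cast h5
      refine ⟨(x + 1, Zf b x n), by simp, by rw [h6]; simp, ?_⟩
      ext
      · rw [h1, c1]; simp [φ]
      · rw [h2, c1, hgt_one]; rfl
    · exfalso
      have hm := hgt_strictMono b x (lt_of_le_of_ne t0 (Ne.symm c0)) (lt_of_le_of_ne t1 c1)
      exact hn (hm.injective heq)
  · have hx : x' = x + 1 := by omega
    have e1 : τ = 1 := by
      have : τ = 1 + τ' := by rw [hτ, h4]; simp
      linarith
    have e2 : τ' = 0 := by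
      have : τ = 1 + τ' := by rw [hτ, h4]; simp
      linarith
    subst hx
    rw [e1, hgt_one] at h2
    rw [e2, hgt_zero] at h2'
    have heq : S b (x + 1) * (Zf b x n : ℝ) = S b (x + 1) * (Yf b (x + 1) n' : ℝ) := by
      rw [← h2, ← h2']
    have h5 := mul_left_cancel₀ (S_pos b (x + 1)).ne' heq
    have h6 : Zf b x n = Yf b (x + 1) n' := by exact_mod_cast h5
    refine ⟨(x + 1, Zf b x n), by simp, by rw [h6]; simp, ?_⟩
    ext
    · rw [h1, e1]; simp [φ]
    · exact h2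

lemma noncrossing (b : ℕ) : ∀ v w v' w' : ℤ × ℤ, (G b).Adj v w → (G b).Adj v' w' →
    s(v, w) ≠ s(v', w') → ∀ z ∈ segment ℝ (φ b v) (φ b w) ∩ segment ℝ (φ b v') (φ b w'),
      ∃ u, u ∈ s(v, w) ∧ u ∈ s(v', w') ∧ z = φ b u := by
  intro v w v' w' h h' hne z hz
  obtain ⟨hz1, hz2⟩ := hz
  rcases edge_cases h with ⟨x, y, he⟩ | ⟨x, n, he⟩ <;>
    rcases edge_cases h' with ⟨x', y', he'⟩ | ⟨x', n', he'⟩
  · rw [segment_congr b he] at hz1
    rw [segment_congr b he'] at hz2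
    rw [he, he'] at hne ⊢
    exact cross_VV hz1 hz2 hne
  · rw [segment_congr b he] at hz1
    rw [segment_congr b he'] at hz2
    rw [he, he']
    exact cross_VR hz1 hz2
  · rw [segment_congr b he] at hz1
    rw [segment_congr b he'] at hz2
    rw [he, he']
    obtain ⟨u, h1, h2, h3⟩ := cross_VR hz2 hz1
    exact ⟨u, h2, h1, h3⟩
  · rw [segment_congr b he] at hz1
    rw [segment_congr b he'] at hz2
    have hne' : ¬ (x = x' ∧ n = n') := by
      rintro ⟨rfl, rfl⟩
      exact hne (he.trans he'.symm)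
    rw [he, he']
    rcases le_total x x' with hxx | hxx
    · exact cross_RR hxx hz1 hz2 hne'
    · obtain ⟨u, h1, h2, h3⟩ := cross_RR hxx hz2 hz1 (fun h => hne' ⟨h.1.symm, h.2.symm⟩)
      exact ⟨u, h2, h1, h3⟩

/-! ### Properness -/

/-- The box of vertices with both coordinates bounded by `M`. -/
lemma box_finite (M : ℝ) : {v : ℤ × ℤ | |(v.1 : ℝ)| ≤ M ∧ |(v.2 : ℝ)| ≤ M}.Finite := by
  have h : {v : ℤ × ℤ | |(v.1 : ℝ)| ≤ M ∧ |(v.2 : ℝ)| ≤ M} ⊆
      (Set.Icc (-⌈M⌉) ⌈M⌉) ×ˢ (Set.Icc (-⌈M⌉) ⌈M⌉) := by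
    rintro ⟨x, y⟩ ⟨h1, h2⟩
    simp only at h1 h2
    have hM := Int.le_ceil M
    obtain ⟨a1, a2⟩ := abs_le.mp h1
    obtain ⟨a3, a4⟩ := abs_le.mp h2
    simp only [Set.mem_prod, Set.mem_Icc]
    refine ⟨⟨?_, ?_⟩, ⟨?_, ?_⟩⟩
    · have : ((-⌈M⌉ : ℤ) : ℝ) ≤ x := by push_cast; linarith
      exact_mod_cast this
    · have : (x : ℝ) ≤ (⌈M⌉ : ℤ) := by linarith
      exact_mod_cast this
    · have : ((-⌈M⌉ : ℤ) : ℝ) ≤ y := by push_cast; linarith
      exact_mod_cast this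
    · have : (y : ℝ) ≤ (⌈M⌉ : ℤ) := by linarith
      exact_mod_cast this
  exact ((Set.finite_Icc _ _).prod (Set.finite_Icc _ _)).subset h

lemma abs_le_of_height {b : ℕ} {v : ℤ × ℤ} {M : ℝ} (h : |(φ b v).2| ≤ M) : |(v.2 : ℝ)| ≤ M := by
  have hs := S_ge_one b v.1
  simp only [φ, abs_mul, abs_of_pos (S_pos b v.1)] at h
  have := abs_nonneg (v.2 : ℝ)
  nlinarith

lemma compact_bound {K : Set (ℝ × ℝ)} (hK : IsCompact K) :
    ∃ R : ℝ, 0 ≤ R ∧ ∀ z ∈ K, |z.1| ≤ R ∧ |z.2| ≤ R := by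
  obtain ⟨R, hR⟩ := hK.isBounded.exists_norm_le
  refine ⟨max R 0, le_max_right _ _, ?_⟩
  intro z hz
  have h1 := (hR z hz).trans (le_max_left R 0)
  exact ⟨(norm_fst_le z).trans h1, (norm_snd_le z).trans h1⟩

lemma properVertices (b : ℕ) (K : Set (ℝ × ℝ)) (hK : IsCompact K) : {v | φ b v ∈ K}.Finite := by
  obtain ⟨R, _, hR⟩ := compact_bound hK
  refine (box_finite R).subset ?_
  intro v hv
  obtain ⟨h1, h2⟩ := hR _ hv
  exact ⟨h1, abs_le_of_height h2⟩

/-- Adjacent vertices are at bounded vertical distance. -/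
lemma height_adj {b : ℕ} {v w : ℤ × ℤ} (h : (G b).Adj v w) :
    |(φ b v).2 - (φ b w).2| ≤ (b + 1) * (S b v.1 + S b w.1) := by
  have hb : (0 : ℝ) ≤ b := Nat.cast_nonneg b
  have key : ∀ x y z : ℤ, rung b x y z →
      |S b x * y - S b (x + 1) * z| ≤ (b + 1) * (S b x + S b (x + 1)) := by
    intro x y z hr
    have hs := S_pos b x
    have hs' := S_pos b (x + 1)
    have hadj := rank_adj x
    rcases lt_trichotomy (rank x) (rank (x + 1)) with h1 | h1 | h1
    · rw [rung_right b x y z h1] at hr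
      have h2 : rank (x + 1) = rank x + 1 := by omega
      have h3 : S b (x + 1) = S b x * (2 * b + 1) := by unfold S; rw [h2, pow_succ]
      have h4 : (((2 : ℝ) * b + 1) * z - b ≤ y) := by
        have := hr.1; unfold B at this; exact_mod_cast this
      have h5 : ((y : ℝ) ≤ ((2 : ℝ) * b + 1) * z + b + 1) := by
        have := hr.2; unfold B at this; exact_mod_cast this
      have h6 : S b x * y - S b (x + 1) * z = S b x * (y - (2 * b + 1) * z) := by rw [h3]; ring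
      rw [h6, abs_mul, abs_of_pos hs]
      have h7 : |(y : ℝ) - (2 * b + 1) * z| ≤ b + 1 := by
        rw [abs_le]; constructor <;> linarith
      have := mul_le_mul_of_nonneg_left h7 hs.le
      nlinarith
    · rw [rung_eq b x y z h1] at hr
      have h3 : S b (x + 1) = S b x := by unfold S; rw [h1]
      rw [h3]
      have h6 : S b x * (y : ℝ) - S b x * z = S b x * (y - z) := by ring
      rw [h6, abs_mul, abs_of_pos hs]
      have h7 : |(y : ℝ) - z| ≤ 1 := by
        rcases hr with hr | hr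
        · rw [hr]; simp
        · rw [hr]; push_cast; simp
      have := mul_le_mul_of_nonneg_left h7 hs.le
      nlinarith
    · rw [rung_left b x y z h1] at hr
      have h2 : rank x = rank (x + 1) + 1 := by omega
      have h3 : S b x = S b (x + 1) * (2 * b + 1) := by unfold S; rw [h2, pow_succ]
      have h4 : (((2 : ℝ) * b + 1) * y - b ≤ z) := by
        have := hr.1; unfold B at this; exact_mod_cast this
      have h5 : ((z : ℝ) ≤ ((2 : ℝ) * b + 1) * y + b + 1) := by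
        have := hr.2; unfold B at this; exact_mod_cast this
      have h6 : S b x * y - S b (x + 1) * z = S b (x + 1) * ((2 * b + 1) * y - z) := by
        rw [h3]; ring
      rw [h6, abs_mul, abs_of_pos hs']
      have h7 : |(2 * (b : ℝ) + 1) * y - z| ≤ b + 1 := by
        rw [abs_le]; constructor <;> linarith
      have := mul_le_mul_of_nonneg_left h7 hs'.le
      nlinarith
  obtain ⟨v1, v2⟩ := v
  obtain ⟨w1, w2⟩ := w
  rw [G_adj] at h
  simp only [φ] at h ⊢
  rcases h with ⟨h1, h2⟩ | ⟨h1, h2⟩ | ⟨h1, h2⟩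
  · subst h1
    have hs := S_pos b v1
    have h6 : S b v1 * (v2 : ℝ) - S b v1 * w2 = S b v1 * (v2 - w2) := by ring
    rw [h6, abs_mul, abs_of_pos hs]
    have h7 : |(v2 : ℝ) - w2| ≤ 1 := by
      rcases h2 with h2 | h2
      · rw [h2]; push_cast; simp
      · rw [h2]; push_cast; simp
    have := mul_le_mul_of_nonneg_left h7 hs.le
    nlinarith
  · subst h1
    exact key v1 v2 w2 h2
  · subst h1
    rw [abs_sub_comm, add_comm (S b (w1 + 1))]
    exact key w1 w2 v2 h2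

lemma rank_le_natAbs (x : ℤ) : rank x ≤ x.natAbs := rank_le (abs_le_X x)

lemma S_le {b : ℕ} {x : ℤ} {M : ℝ} (h : |(x : ℝ)| ≤ M) : S b x ≤ (2 * (b : ℝ) + 1) ^ ⌈M⌉₊ := by
  have hb : (0 : ℝ) ≤ b := Nat.cast_nonneg b
  unfold S
  refine pow_le_pow_right₀ (by linarith) ?_
  refine (rank_le_natAbs x).trans ?_
  have h1 : ((x.natAbs : ℕ) : ℝ) = |(x : ℝ)| := by
    rw [Nat.cast_natAbs]; push_cast; rfl
  have h2 : ((x.natAbs : ℕ) : ℝ) ≤ ⌈M⌉₊ := by
    rw [h1]; exact h.trans (Nat.le_ceil M)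
  exact_mod_cast h2

lemma properEdges (b : ℕ) (K : Set (ℝ × ℝ)) (hK : IsCompact K) :
    {p : (ℤ × ℤ) × (ℤ × ℤ) | (G b).Adj p.1 p.2 ∧
      (segment ℝ (φ b p.1) (φ b p.2) ∩ K).Nonempty}.Finite := by
  obtain ⟨R, hR0, hR⟩ := compact_bound hK
  have hb : (0 : ℝ) ≤ b := Nat.cast_nonneg b
  set Q : ℝ := (2 * (b : ℝ) + 1) ^ ⌈R + 1⌉₊ with hQ
  have hQ1 : 1 ≤ Q := one_le_pow₀ (by linarith)
  set M : ℝ := R + 1 + (b + 1) * (2 * Q) with hM
  have hMR : R + 1 ≤ M := by rw [hM]; nlinarith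
  refine ((box_finite M).prod (box_finite M)).subset ?_
  rintro ⟨v, w⟩ ⟨hadj, z, hz, hzK⟩
  obtain ⟨hz1, hz2⟩ := hR z hzK
  simp only at hadj hz
  have hcol : |(v.1 : ℝ) - w.1| ≤ 1 := by
    rw [G_adj] at hadj
    rcases hadj with ⟨h1, _⟩ | ⟨h1, _⟩ | ⟨h1, _⟩
    · rw [h1]; simp
    · rw [h1]; push_cast; simp
    · rw [h1]; push_cast; simp
  have hht := height_adj hadj
  obtain ⟨s, t, hs0, ht0, hst, rfl⟩ := hz
  simp only [Prod.fst_add, Prod.smul_fst, Prod.snd_add, Prod.smul_snd, smul_eq_mul] at hz1 hz2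
  have hs1 : s = 1 - t := by linarith
  subst hs1
  have c1 : |(v.1 : ℝ)| ≤ R + 1 := by
    have e : (v.1 : ℝ) = ((1 - t) * (φ b v).1 + t * (φ b w).1) + t * ((v.1 : ℝ) - w.1) := by
      simp only [φ]; ring
    rw [e]
    refine (abs_add_le _ _).trans ?_
    rw [abs_mul, abs_of_nonneg ht0]
    nlinarith [abs_nonneg ((v.1 : ℝ) - w.1)]
  have c2 : |(w.1 : ℝ)| ≤ R + 1 := by
    have e : (w.1 : ℝ) = ((1 - t) * (φ b v).1 + t * (φ b w).1) - (1 - t) * ((v.1 : ℝ) - w.1) := by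
      simp only [φ]; ring
    rw [e]
    refine (abs_sub _ _).trans ?_
    rw [abs_mul, abs_of_nonneg hs0]
    nlinarith [abs_nonneg ((v.1 : ℝ) - w.1)]
  have s1 := S_le (b := b) c1
  have s2 := S_le (b := b) c2
  rw [← hQ] at s1 s2
  have hht' : |(φ b v).2 - (φ b w).2| ≤ (b + 1) * (2 * Q) :=
    hht.trans (mul_le_mul_of_nonneg_left (by linarith) (by linarith))
  have c3 : |(φ b v).2| ≤ M := by
    have e : (φ b v).2 = ((1 - t) * (φ b v).2 + t * (φ b w).2) + t * ((φ b v).2 - (φ b w).2) := by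
      ring
    rw [e]
    refine (abs_add_le _ _).trans ?_
    rw [abs_mul, abs_of_nonneg ht0]
    have h9 : t * |(φ b v).2 - (φ b w).2| ≤ 1 * ((b + 1) * (2 * Q)) :=
      mul_le_mul (by linarith) hht' (abs_nonneg _) (by linarith)
    linarith
  have c4 : |(φ b w).2| ≤ M := by
    have e : (φ b w).2 = ((1 - t) * (φ b v).2 + t * (φ b w).2) -
        (1 - t) * ((φ b v).2 - (φ b w).2) := by ring
    rw [e]
    refine (abs_sub _ _).trans ?_
    rw [abs_mul, abs_of_nonneg hs0]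
    have h9 : (1 - t) * |(φ b v).2 - (φ b w).2| ≤ 1 * ((b + 1) * (2 * Q)) :=
      mul_le_mul (by linarith) hht' (abs_nonneg _) (by linarith)
    linarith
  exact ⟨⟨c1.trans hMR, abs_le_of_height c3⟩, ⟨c2.trans hMR, abs_le_of_height c4⟩⟩

/-! ### Connectedness -/

lemma reach_vert (b : ℕ) (x y : ℤ) : (G b).Reachable (x, y) (x, 0) := by
  induction y using Int.induction_on with
  | zero => exact SimpleGraph.Reachable.refl _
  | succ i ih => exact (adj_vert b x i).symm.reachable.trans ih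
  | pred i ih =>
    have h := adj_vert b x (-(i : ℤ) - 1)
    rw [sub_add_cancel] at h
    exact h.reachable.trans ih

lemma reach_horiz (b : ℕ) (x : ℤ) : (G b).Reachable (x, 0) (0, 0) := by
  have hstep : ∀ x, (G b).Reachable (x, 0) (x + 1, 0) := by
    intro x
    exact (adj_rung (step_adj_right b x 0)).reachable.trans (reach_vert b _ _)
  induction x using Int.induction_on with
  | zero => exact SimpleGraph.Reachable.refl _
  | succ i ih => exact (hstep i).symm.trans ih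
  | pred i ih =>
    have h := hstep (-(i : ℤ) - 1)
    rw [sub_add_cancel] at h
    exact h.trans ih

lemma G_connected (b : ℕ) : (G b).Connected := by
  have h : ∀ v, (G b).Reachable v (0, 0) := by
    rintro ⟨x, y⟩
    exact (reach_vert b x y).trans (reach_horiz b x)
  exact ⟨fun v w => (h v).trans (h w).symm⟩

end Pool.Agent.Lib.MP_92f966_pr
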