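import Mathlib

/-!
# The rank function of the columns
-/

set_option autoImplicit false

namespace Pool.Agent.Lib.MP_92f966_pr

/-- Half-width of a level `k` block of columns. -/
def X (k : ℕ) : ℤ := 3 ^ k - 1

/-- Distance between the centres of adjacent level `k` blocks. -/
def D (k : ℕ) : ℤ := 2 * 3 ^ k - 1

lemma D_eq (k : ℕ) : D k = 2 * X k + 1 := by unfold D X; ring

lemma X_succ (k : ℕ) : X (k + 1) = D k + X k + 1 := by unfold D X; ring

lemma X_zero : X 0 = 0 := by simp [X]

lemma X_nonneg (k : ℕ) : 0 ≤ X k := by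
  unfold X
  have : (1 : ℤ) ≤ 3 ^ k := one_le_pow₀ (by norm_num)
  linarith

lemma X_lt_succ (k : ℕ) : X k < X (k + 1) := by
  have h1 := X_succ k
  have h2 := D_eq k
  have h3 := X_nonneg k
  linarith

lemma X_mono {k k' : ℕ} (h : k ≤ k') : X k ≤ X k' :=
  monotone_nat_of_le_succ (fun n => (X_lt_succ n).le) h

lemma X_strictMono : StrictMono X := strictMono_nat_of_lt_succ X_lt_succ

/-- Approximations of the rank function. -/
def rk : ℕ → ℤ → ℕ
  | 0, _ => 0
  | k + 1, x =>
    if X (k + 1) ≤ |x| then k + 1
    else if |x| ≤ X k then rk k x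
    else if 0 < x then rk k (x - D k)
    else rk k (x + D k)

/-- The rank of the column `x`. -/
def rank (x : ℤ) : ℕ := rk x.natAbs x

lemma rk_succ (k : ℕ) (x : ℤ) (h : |x| ≤ X k) : rk (k + 1) x = rk k x := by
  have h1 := X_lt_succ k
  rw [rk, if_neg (by linarith), if_pos h]

lemma rk_stable {k k' : ℕ} (hk : k ≤ k') (x : ℤ) (h : |x| ≤ X k) : rk k' x = rk k x := by
  induction k', hk using Nat.le_induction with
  | base => rfl
  | succ n hn ih => rw [rk_succ n x (h.trans (X_mono hn)), ih]

lemma abs_le_X (x : ℤ) : |x| ≤ X x.natAbs := by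
  unfold X
  have h : x.natAbs < 3 ^ x.natAbs := Nat.lt_pow_self (by norm_num)
  have h2 : ((x.natAbs : ℕ) : ℤ) + 1 ≤ ((3 ^ x.natAbs : ℕ) : ℤ) := by exact_mod_cast h
  push_cast at h2
  linarith

lemma rank_eq_rk (k : ℕ) (x : ℤ) (h : |x| ≤ X k) : rank x = rk k x := by
  unfold rank
  rcases le_total k x.natAbs with h1 | h1
  · exact rk_stable h1 x h
  · exact (rk_stable h1 x (abs_le_X x)).symm

lemma rank_of_abs_eq (k : ℕ) (x : ℤ) (h : |x| = X k) : rank x = k := by
  rw [rank_eq_rk k x h.le]
  cases k with
  | zero => rfl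
  | succ k => rw [rk, if_pos h.ge]

lemma rank_X (k : ℕ) : rank (X k) = k := rank_of_abs_eq k _ (abs_of_nonneg (X_nonneg k))

lemma rank_neg_X (k : ℕ) : rank (-X k) = k :=
  rank_of_abs_eq k _ (by rw [abs_neg, abs_of_nonneg (X_nonneg k)])

lemma rank_add_D (k : ℕ) (x : ℤ) (h : |x| ≤ X k) : rank (x + D k) = rank x := by
  have h1 := X_succ k
  have h2 := D_eq k
  have h3 := X_nonneg k
  obtain ⟨h4, h5⟩ := abs_le.mp h
  have h6 : |x + D k| = x + D k := abs_of_nonneg (by linarith)
  rw [rank_eq_rk (k + 1) (x + D k) (by rw [h6]; linarith), rk, if_neg (by rw [h6]; linarith),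
    if_neg (by rw [h6]; linarith), if_pos (by linarith), add_sub_cancel_right, rank_eq_rk k x h]

lemma rank_sub_D (k : ℕ) (x : ℤ) (h : |x| ≤ X k) : rank (x - D k) = rank x := by
  have h1 := X_succ k
  have h2 := D_eq k
  have h3 := X_nonneg k
  obtain ⟨h4, h5⟩ := abs_le.mp h
  have h6 : |x - D k| = -(x - D k) := abs_of_nonpos (by linarith)
  rw [rank_eq_rk (k + 1) (x - D k) (by rw [h6]; linarith), rk, if_neg (by rw [h6]; linarith),
    if_neg (by rw [h6]; linarith), if_neg (by linarith), sub_add_cancel, rank_eq_rk k x h]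

/-- Case distinction for a column of the level `k + 1` block around `0`. -/
lemma cases_block (k : ℕ) (x : ℤ) (h : |x| ≤ X (k + 1)) :
    x = -X (k + 1) ∨ |x + D k| ≤ X k ∨ |x| ≤ X k ∨ |x - D k| ≤ X k ∨ x = X (k + 1) := by
  have h1 := X_succ k
  have h2 := D_eq k
  obtain ⟨h4, h5⟩ := abs_le.mp h
  simp only [abs_le]
  omega

/-- A level `k` block around `c` is a translate of the one around `0`. -/
def Blk (k : ℕ) (c : ℤ) : Prop := ∀ y, |y| ≤ X k → rank (c + y) = rank y

lemma Blk_zero (k : ℕ) : Blk k 0 := fun y _ => by rw [zero_add]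

lemma Blk.mid {k : ℕ} {c : ℤ} (h : Blk (k + 1) c) : Blk k c :=
  fun y hy => h y (hy.trans (X_lt_succ k).le)

lemma Blk.right {k : ℕ} {c : ℤ} (h : Blk (k + 1) c) : Blk k (c + D k) := by
  intro y hy
  have h1 := X_succ k
  have h2 := D_eq k
  have h3 := X_nonneg k
  obtain ⟨h4, h5⟩ := abs_le.mp hy
  rw [add_assoc, h (D k + y) (by rw [abs_le]; constructor <;> linarith), add_comm (D k),
    rank_add_D k y hy]

lemma Blk.left {k : ℕ} {c : ℤ} (h : Blk (k + 1) c) : Blk k (c - D k) := by
  intro y hy
  have h1 := X_succ k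
  have h2 := D_eq k
  have h3 := X_nonneg k
  obtain ⟨h4, h5⟩ := abs_le.mp hy
  have e : c - D k + y = c + (y - D k) := by ring
  rw [e, h (y - D k) (by rw [abs_le]; constructor <;> linarith), rank_sub_D k y hy]

/-- Ranks in the level `k` block around `0` are at most `k`, and less than `k` in the interior. -/
lemma rank_le_lt (k : ℕ) : ∀ x : ℤ, (|x| ≤ X k → rank x ≤ k) ∧ (|x| < X k → rank x < k) := by
  induction k with
  | zero =>
    intro x
    constructor
    · intro h
      rw [rank_eq_rk 0 x h]
      exact le_refl _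
    · intro h
      rw [X_zero] at h
      exact absurd (abs_nonneg x) (by linarith)
  | succ k ih =>
    have key : ∀ x : ℤ, |x| < X (k + 1) → rank x < k + 1 := by
      intro x hx
      rcases cases_block k x hx.le with h | h | h | h | h
      · rw [h, abs_neg, abs_of_nonneg (X_nonneg _)] at hx
        exact absurd hx (lt_irrefl _)
      · have := rank_sub_D k (x + D k) h
        rw [add_sub_cancel_right] at this
        rw [this]
        exact Nat.lt_succ_of_le ((ih _).1 h)
      · exact Nat.lt_succ_of_le ((ih _).1 h)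
      · have := rank_add_D k (x - D k) h
        rw [sub_add_cancel] at this
        rw [this]
        exact Nat.lt_succ_of_le ((ih _).1 h)
      · rw [h, abs_of_nonneg (X_nonneg _)] at hx
        exact absurd hx (lt_irrefl _)
    intro x
    refine ⟨fun h => ?_, key x⟩
    rcases h.lt_or_eq with h | h
    · exact (key x h).le
    · exact (rank_of_abs_eq _ _ h).le

lemma rank_le {k : ℕ} {x : ℤ} (h : |x| ≤ X k) : rank x ≤ k := (rank_le_lt k x).1 h

lemma rank_lt {k : ℕ} {x : ℤ} (h : |x| < X k) : rank x < k := (rank_le_lt k x).2 h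

/-- Ranks of adjacent columns differ by at most one. -/
lemma rank_adj_aux (k : ℕ) : ∀ x : ℤ, -X k ≤ x → x + 1 ≤ X k →
    rank (x + 1) ≤ rank x + 1 ∧ rank x ≤ rank (x + 1) + 1 := by
  induction k with
  | zero =>
    intro x h1 h2
    rw [X_zero] at h1 h2
    omega
  | succ k ih =>
    intro x h1 h2
    have e1 := X_succ k
    have e2 := D_eq k
    have e3 := X_nonneg k
    have rX := rank_X k
    have rnX := rank_neg_X k
    have rX' := rank_X (k + 1)
    have rnX' := rank_neg_X (k + 1)
    -- ranks of the ends of the three sub-blocks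
    have a1 : rank (-X k - D k) = k := by
      rw [rank_sub_D k _ (by rw [abs_neg, abs_of_nonneg e3]), rnX]
    have a2 : rank (X k - D k) = k := by
      rw [rank_sub_D k _ (by rw [abs_of_nonneg e3]), rX]
    have a3 : rank (-X k + D k) = k := by
      rw [rank_add_D k _ (by rw [abs_neg, abs_of_nonneg e3]), rnX]
    have a4 : rank (X k + D k) = k := by
      rw [rank_add_D k _ (by rw [abs_of_nonneg e3]), rX]
    by_cases c1 : x = -X (k + 1)
    · have : x + 1 = -X k - D k := by linarith
      rw [this, a1, c1, rnX']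
      omega
    by_cases c2 : x + 1 ≤ X k - D k
    · have h3 := ih (x + D k) (by omega) (by omega)
      have b1 := rank_sub_D k (x + D k) (by rw [abs_le]; omega)
      have b2 := rank_sub_D k (x + 1 + D k) (by rw [abs_le]; omega)
      rw [add_sub_cancel_right] at b1 b2
      rw [b1, b2]
      have : x + 1 + D k = x + D k + 1 := by ring
      rw [this]
      exact h3
    by_cases c3 : x = X k - D k
    · have : x + 1 = -X k := by linarith
      rw [this, rnX, c3, a2]
      omega
    by_cases c4 : x + 1 ≤ X k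
    · exact ih x (by omega) c4
    by_cases c5 : x = X k
    · have : x + 1 = -X k + D k := by linarith
      rw [this, a3, c5, rX]
      omega
    by_cases c6 : x + 1 ≤ X k + D k
    · have h3 := ih (x - D k) (by omega) (by omega)
      have b1 := rank_add_D k (x - D k) (by rw [abs_le]; omega)
      have b2 := rank_add_D k (x + 1 - D k) (by rw [abs_le]; omega)
      rw [sub_add_cancel] at b1 b2
      rw [b1, b2]
      have : x + 1 - D k = x - D k + 1 := by ring
      rw [this]
      exact h3
    · have h5 : x = X k + D k := by omega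
      have h6 : x + 1 = X (k + 1) := by omega
      rw [h6, rX', h5, a4]
      omega

lemma rank_adj (x : ℤ) : rank (x + 1) ≤ rank x + 1 ∧ rank x ≤ rank (x + 1) + 1 := by
  obtain ⟨k, hk⟩ : ∃ k, |x| + 1 ≤ X k := by
    refine ⟨(|x| + 1).natAbs, ?_⟩
    have := abs_le_X (|x| + 1)
    rwa [abs_of_nonneg (by positivity)] at this
  have := abs_le.mp (show |x| ≤ X k by linarith)
  exact rank_adj_aux k x this.1 (by have := le_abs_self x; linarith)

/-- Every column of positive rank has an adjacent column of rank one less. -/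
lemma exists_lower_aux (k : ℕ) : ∀ x : ℤ, |x| ≤ X k → 1 ≤ rank x →
    ∃ x', |x'| ≤ X k ∧ (x' = x + 1 ∨ x' = x - 1) ∧ rank x' + 1 = rank x := by
  induction k with
  | zero =>
    intro x h1 h2
    have := rank_le h1
    omega
  | succ k ih =>
    intro x h1 h2
    have e1 := X_succ k
    have e2 := D_eq k
    have e3 := X_nonneg k
    rcases cases_block k x h1 with h | h | h | h | h
    · refine ⟨x + 1, ?_, Or.inl rfl, ?_⟩
      · rw [abs_le]; omega
      · have : x + 1 = -X k - D k := by linarith
        rw [this, rank_sub_D k _ (by rw [abs_neg, abs_of_nonneg e3]), rank_neg_X, h, rank_neg_X]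
    · have b1 := rank_sub_D k (x + D k) h
      rw [add_sub_cancel_right] at b1
      rw [b1] at h2
      obtain ⟨x', hx1, hx2, hx3⟩ := ih (x + D k) h h2
      have b2 := rank_sub_D k x' hx1
      have := abs_le.mp hx1
      refine ⟨x' - D k, ?_, ?_, ?_⟩
      · rw [abs_le]; omega
      · rcases hx2 with hx2 | hx2
        · left; linarith
        · right; linarith
      · rw [b2, b1, hx3]
    · obtain ⟨x', hx1, hx2, hx3⟩ := ih x h h2
      exact ⟨x', hx1.trans (X_lt_succ k).le, hx2, hx3⟩
    · have b1 := rank_add_D k (x - D k) h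
      rw [sub_add_cancel] at b1
      rw [b1] at h2
      obtain ⟨x', hx1, hx2, hx3⟩ := ih (x - D k) h h2
      have b2 := rank_add_D k x' hx1
      have := abs_le.mp hx1
      refine ⟨x' + D k, ?_, ?_, ?_⟩
      · rw [abs_le]; omega
      · rcases hx2 with hx2 | hx2
        · left; linarith
        · right; linarith
      · rw [b2, b1, hx3]
    · refine ⟨x - 1, ?_, Or.inr rfl, ?_⟩
      · rw [abs_le]; omega
      · have : x - 1 = X k + D k := by linarith
        rw [this, rank_add_D k _ (by rw [abs_of_nonneg e3]), rank_X, h, rank_X]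

lemma exists_lower (x : ℤ) (h : 1 ≤ rank x) :
    ∃ x', (x' = x + 1 ∨ x' = x - 1) ∧ rank x' + 1 = rank x := by
  obtain ⟨x', _, h2, h3⟩ := exists_lower_aux _ x (abs_le_X x) h
  exact ⟨x', h2, h3⟩

/-- Every column of rank less than `k` lies in the interior of a level `k` block. -/
lemma exists_block_aux (k K : ℕ) (hK : k ≤ K) : ∀ x : ℤ, |x| ≤ X K → rank x < k →
    ∃ c, |x - c| < X k ∧ Blk k c ∧ |c| + X k ≤ X K := by
  induction K, hK using Nat.le_induction with
  | base =>
    intro x h1 h2
    refine ⟨0, ?_, Blk_zero k, by simp⟩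
    rw [sub_zero]
    rcases h1.lt_or_eq with h | h
    · exact h
    · rw [rank_of_abs_eq k x h] at h2
      exact absurd h2 (lt_irrefl _)
  | succ K hK ih =>
    intro x h1 h2
    have e1 := X_succ K
    have e2 := D_eq K
    have e3 := X_nonneg K
    rcases cases_block K x h1 with h | h | h | h | h
    · rw [h, rank_neg_X] at h2
      omega
    · have b1 := rank_sub_D K (x + D K) h
      rw [add_sub_cancel_right] at b1
      rw [b1] at h2
      obtain ⟨c, hc1, hc2, hc3⟩ := ih (x + D K) h h2
      refine ⟨c - D K, ?_, ?_, ?_⟩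
      · have : x - (c - D K) = x + D K - c := by ring
        rwa [this]
      · intro y hy
        have e : c - D K + y = c + y - D K := by ring
        have h4 := abs_add_le c y
        rw [e, rank_sub_D K (c + y) (by linarith), hc2 y hy]
      · have h4 := abs_sub c (D K)
        rw [abs_of_nonneg (show 0 ≤ D K by linarith)] at h4
        linarith
    · obtain ⟨c, hc1, hc2, hc3⟩ := ih x h h2
      exact ⟨c, hc1, hc2, hc3.trans (X_lt_succ K).le⟩
    · have b1 := rank_add_D K (x - D K) h
      rw [sub_add_cancel] at b1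
      rw [b1] at h2
      obtain ⟨c, hc1, hc2, hc3⟩ := ih (x - D K) h h2
      refine ⟨c + D K, ?_, ?_, ?_⟩
      · have : x - (c + D K) = x - D K - c := by ring
        rwa [this]
      · intro y hy
        have e : c + D K + y = c + y + D K := by ring
        have h4 := abs_add_le c y
        rw [e, rank_add_D K (c + y) (by linarith), hc2 y hy]
      · have h4 := abs_add_le c (D K)
        rw [abs_of_nonneg (show 0 ≤ D K by linarith)] at h4
        linarith
    · rw [h, rank_X] at h2
      omega

lemma exists_block (k : ℕ) (x : ℤ) (h : rank x < k) : ∃ c, |x - c| < X k ∧ Blk k c := by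
  obtain ⟨c, h1, h2, _⟩ := exists_block_aux k (max k x.natAbs) (le_max_left _ _) x
    ((abs_le_X x).trans (X_mono (le_max_right _ _))) h
  exact ⟨c, h1, h2⟩

end Pool.Agent.Lib.MP_92f966_pr
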